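import Mathlib

/-!
# Leopoldt's conjecture for one number field and one prime
-/

set_option autoImplicit false

open Filter Topology NumberField

namespace Pool.Agent.Helper85_Leo

/-- Leopoldt's conjecture for the number field `K` and the prime `p` (the frozen statement S17123
for fixed `K` and `p`): units of `K` which are congruent to `1` modulo every prime above `p` and
multiplicatively independent over `ℤ` stay independent over `ℤ_p`. -/
def LeopoldtAt (K : Type) [Field K] [NumberField K] (p : ℕ) [Fact p.Prime] : Prop :=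
  ∀ (n : ℕ) (ε : Fin n → (𝓞 K)ˣ),
    (∀ i, ((ε i : 𝓞 K) - 1) ∈ (Ideal.span {((p : ℕ) : 𝓞 K)}).radical) →
    (∀ c : Fin n → ℤ, ∏ i, ε i ^ c i = 1 → c = 0) →
    ∀ (a : Fin n → PadicInt p) (m : ℕ → Fin n → ℤ),
      (∀ i, Tendsto (fun k => ((m k i : ℤ) : PadicInt p)) atTop (𝓝 (a i))) →
      (∀ N : ℕ, ∀ᶠ k in atTop,
        ((p : ℕ) : 𝓞 K) ^ N ∣ (((∏ i, ε i ^ m k i : (𝓞 K)ˣ) : 𝓞 K) - 1)) →
      a = 0

end Pool.Agent.Helper85_Leo
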