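import Pool.Agent.Helper85_Leo.LogP
import Pool.Agent.Helper85_Leo.Defs

/-!
# A criterion for Leopoldt's conjecture for one field and one prime
-/

set_option autoImplicit false
set_option linter.unusedSectionVars false

open Filter Topology NumberField

namespace Pool.Agent.Helper85_Leo

section integral

variable {F : Type*} [NormedField F] [IsUltrametricDist F]

theorem norm_le_one_of_isIntegral {x : F} (hx : IsIntegral ℤ x) : ‖x‖ ≤ 1 := by
  obtain ⟨P, hm, hP⟩ := hx
  by_contra hlt
  push Not at hlt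
  have h1 : Polynomial.aeval x P = 0 := by
    rw [Polynomial.aeval_def]; exact hP
  rw [Polynomial.aeval_eq_sum_range, Finset.sum_range_succ] at h1
  have hlead : P.coeff P.natDegree = 1 := hm
  rw [hlead, one_smul] at h1
  rcases Nat.eq_zero_or_pos P.natDegree with h0 | hpos
  · rw [h0] at h1
    simp at h1
  have h2 : x ^ P.natDegree = -∑ i ∈ Finset.range P.natDegree, P.coeff i • x ^ i := by
    rw [eq_neg_iff_add_eq_zero, add_comm]
    exact h1
  have h3 : ‖x ^ P.natDegree‖ ≤ ‖x‖ ^ (P.natDegree - 1) := by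
    rw [h2, norm_neg]
    refine IsUltrametricDist.norm_sum_le_of_forall_le_of_nonneg (by positivity) fun i hi => ?_
    rw [zsmul_eq_mul, norm_mul, norm_pow]
    have h4 : ‖((P.coeff i : ℤ) : F)‖ ≤ 1 := IsUltrametricDist.norm_intCast_le_one F _
    have h5 : ‖x‖ ^ i ≤ ‖x‖ ^ (P.natDegree - 1) :=
      pow_le_pow_right₀ hlt.le (by have := Finset.mem_range.1 hi; omega)
    calc _ ≤ 1 * ‖x‖ ^ (P.natDegree - 1) := mul_le_mul h4 h5 (by positivity) zero_le_one
      _ = _ := one_mul _
  rw [norm_pow] at h3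
  have h6 : ‖x‖ ^ (P.natDegree - 1) < ‖x‖ ^ P.natDegree :=
    pow_lt_pow_right₀ hlt (by omega)
  linarith

variable {K : Type*} [Field K] [NumberField K]

theorem norm_embedding_le_one (σ : K →+* F) (x : 𝓞 K) : ‖σ (x : K)‖ ≤ 1 := by
  refine norm_le_one_of_isIntegral ?_
  have h := x.isIntegral_coe
  exact h.map σ.toIntAlgHom

end integral

section rational

/-- Rational independence trick: if real numbers ... here `p`-adic numbers `a j`, not all zero,
satisfy a system of homogeneous linear equations with integral coefficients, then there is a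
nonzero integral solution. -/
theorem exists_int_solution {V : Type*} [AddCommGroup V] [Module ℚ V] {J I : Type*} [Fintype J]
    (a : J → V) (B : J → I → ℤ) (h : ∀ i, ∑ j, (B j i : ℚ) • a j = 0) (j₀ : J) (hj₀ : a j₀ ≠ 0) :
    ∃ z : J → ℤ, z j₀ ≠ 0 ∧ ∀ i, ∑ j, B j i * z j = 0 := by
  classical
  have h1 : ∃ φ : Module.Dual ℚ V, φ (a j₀) ≠ 0 := by
    by_contra hcon
    push Not at hcon
    exact hj₀ ((Module.forall_dual_apply_eq_zero_iff ℚ (a j₀)).1 hcon)
  obtain ⟨φ, hφ⟩ := h1
  obtain ⟨D, hD⟩ := IsLocalization.exist_integer_multiples_of_finset (nonZeroDivisors ℤ)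
    (Finset.univ.image fun j => φ (a j))
  have hD' : ∀ j, ∃ z : ℤ, (z : ℚ) = (D : ℤ) * φ (a j) := by
    intro j
    obtain ⟨z, hz⟩ := hD (φ (a j)) (Finset.mem_image_of_mem _ (Finset.mem_univ j))
    refine ⟨z, ?_⟩
    rw [← zsmul_eq_mul]
    exact hz
  choose z hz using hD'
  have hD0 : ((D : ℤ) : ℚ) ≠ 0 := by
    have := nonZeroDivisors.coe_ne_zero D
    exact_mod_cast this
  refine ⟨z, ?_, fun i => ?_⟩
  · intro h0
    have h2 := hz j₀
    rw [h0] at h2
    push_cast at h2
    rcases mul_eq_zero.1 h2.symm with h3 | h3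
    · exact hD0 h3
    · exact hφ h3
  · have h2 := congrArg φ (h i)
    rw [map_sum, map_zero] at h2
    simp only [map_smul, smul_eq_mul] at h2
    have h3 : ((∑ j, B j i * z j : ℤ) : ℚ) = (D : ℤ) * ∑ j, (B j i : ℚ) * φ (a j) := by
      push_cast
      rw [Finset.mul_sum]
      refine Finset.sum_congr rfl fun j _ => ?_
      rw [hz j]
      ring
    rw [h2, mul_zero] at h3
    exact_mod_cast h3

end rational

theorem prod_zpow_eq {G : Type*} [CommGroup G] {J : Type*} (g : G) (s : Finset J) (f : J → ℤ) :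
    ∏ j ∈ s, g ^ f j = g ^ ∑ j ∈ s, f j := by
  classical
  induction s using Finset.induction_on with
  | empty => simp
  | insert j s hj ih => rw [Finset.prod_insert hj, Finset.sum_insert hj, zpow_add, ih]

section criterion

variable (p : ℕ) [hp : Fact p.Prime] {F : Type*} [NormedField F] [NormedAlgebra ℚ_[p] F]
  [IsUltrametricDist F]
variable {K : Type} [Field K] [NumberField K]

/-- The value of a unit under an embedding. -/
def unitVal {F : Type*} [NormedField F] (σ : K →+* F) : (𝓞 K)ˣ →* F where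
  toFun u := σ ((u : 𝓞 K) : K)
  map_one' := by simp
  map_mul' := by intro a b; simp

theorem unitVal_zpow (σ : K →+* F) (u : (𝓞 K)ˣ) (k : ℤ) : unitVal σ (u ^ k) = unitVal σ u ^ k := by
  exact map_zpow' (unitVal σ) (fun x => by
    have h1 : unitVal σ x * unitVal σ x⁻¹ = 1 := by rw [← map_mul]; simp
    exact eq_inv_of_mul_eq_one_right h1) u k

variable {ι : Type*} [Fintype ι]

/-- Logarithm of a product of units. -/
theorem hasLog_unit_prod (σ : K →+* F) (η : ι → (𝓞 K)ˣ) (e : ℕ) (l : ι → F)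
    (hl : ∀ i, HasLog p (unitVal σ (η i) ^ e) (l i)) (c : ι → ℤ) :
    HasLog p (unitVal σ ((∏ i, η i ^ c i) ^ e)) (∑ i, (c i : F) * l i) := by
  have h1 : unitVal σ ((∏ i, η i ^ c i) ^ e) = ∏ i, (unitVal σ (η i) ^ e) ^ c i := by
    rw [map_pow, map_prod, ← Finset.prod_pow]
    refine Finset.prod_congr rfl fun i _ => ?_
    rw [unitVal_zpow, ← zpow_natCast, ← zpow_natCast, ← zpow_mul, ← zpow_mul, mul_comm]
  rw [h1]
  exact hasLog_prod _ _ _ fun i _ => (hl i).zpow (c i)

/-- **Criterion.** Suppose units `η i`, `i ∈ ι`, with `|ι| ≥ rank + 1`, have `p`-adic logarithms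
`l σ i` (after raising to the power `e`) whose only linear relations, over all embeddings, are
the constant ones. Then Leopoldt's conjecture holds for `K` and `p`. -/
theorem leopoldtAt_of_logs (η : ι → (𝓞 K)ˣ) (e : ℕ) (l : (K →+* F) → ι → F)
    (hl : ∀ σ i, HasLog p (unitVal σ (η i) ^ e) (l σ i))
    (hind : ∀ c : ι → F, (∀ σ : K →+* F, ∑ i, c i * l σ i = 0) → ∀ i j, c i = c j)
    (hrank : Units.rank K + 1 ≤ Fintype.card ι) : LeopoldtAt K p := by
  classical
  have hchar := charZero_of_padic p F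
  have hne : Nonempty ι := Fintype.card_pos_iff.1 (by omega)
  obtain ⟨i₀⟩ := hne
  -- integer independence
  have hint : ∀ c : ι → ℤ, ∏ i, η i ^ c i = 1 → ∀ i j, c i = c j := by
    intro c hc i j
    have h1 : ∀ σ : K →+* F, ∑ i, (c i : F) * l σ i = 0 := by
      intro σ
      have h2 := hasLog_unit_prod p σ η e (l σ) (hl σ) c
      rw [hc, one_pow, map_one] at h2
      exact h2.unique hasLog_one
    have h3 := hind (fun i => (c i : F)) h1 i j
    exact_mod_cast h3
  -- every unit has a power in the group generated by the `η i`, `i ≠ i₀`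
  have hpow : ∀ ε : (𝓞 K)ˣ, ∃ (N : ℕ) (B : ι → ℤ), 0 < N ∧ B i₀ = 0 ∧ ε ^ N = ∏ i, η i ^ B i := by
    intro ε
    let f : Option {i : ι // i ≠ i₀} → Additive (𝓞 K)ˣ := fun o =>
      Additive.ofMul (o.elim ε fun i => η i.1)
    have hdep : ¬ LinearIndependent ℤ f := by
      intro hli
      have h1 := hli.fintype_card_le_finrank
      rw [Units.finrank_eq, Fintype.card_option, Fintype.card_subtype_compl,
        Fintype.card_subtype_eq] at h1
      omega
    rw [Fintype.not_linearIndependent_iff] at hdep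
    obtain ⟨c, hc, o, ho⟩ := hdep
    let C : ι → ℤ := fun i => if h : i = i₀ then 0 else c (some ⟨i, h⟩)
    have hC0 : C i₀ = 0 := by simp [C]
    have hrel : ε ^ c none * ∏ i, η i ^ C i = 1 := by
      have h1 : ∏ o, (Additive.toMul (f o)) ^ c o = 1 := by
        have h2 := congrArg Additive.toMul hc
        rw [toMul_sum] at h2
        simpa using h2
      rw [Fintype.prod_option] at h1
      have h2 : ∏ i, η i ^ C i = ∏ i : {i : ι // i ≠ i₀}, η i.1 ^ c (some i) := by
        rw [← Finset.mul_prod_erase Finset.univ _ (Finset.mem_univ i₀), hC0, zpow_zero, one_mul,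
          Finset.prod_subtype (Finset.univ.erase i₀) (p := fun i => i ≠ i₀) (by simp)
            (fun i => η i ^ C i)]
        refine Finset.prod_congr rfl fun i _ => ?_
        simp [C, i.2]
      rw [h2]
      exact h1
    have hc0 : c none ≠ 0 := by
      intro h0
      rw [h0, zpow_zero, one_mul] at hrel
      have h1 := hint C hrel
      have h2 : ∀ i, C i = 0 := fun i => (h1 i i₀).trans hC0
      apply ho
      cases o with
      | none => exact h0
      | some i =>
        have := h2 i.1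
        simpa [C, i.2] using this
    rcases lt_or_gt_of_ne hc0 with hneg | hpos
    · refine ⟨(c none).natAbs, C, Int.natAbs_pos.2 hc0, hC0, ?_⟩
      have h1 : ((c none).natAbs : ℤ) = -c none := by omega
      rw [← zpow_natCast, h1, zpow_neg, inv_eq_iff_mul_eq_one]
      exact hrel
    · refine ⟨(c none).natAbs, fun i => -C i, Int.natAbs_pos.2 hc0, by simp [hC0], ?_⟩
      have h1 : ((c none).natAbs : ℤ) = c none := by omega
      rw [← zpow_natCast, h1]
      simp only [zpow_neg, Finset.prod_inv_distrib]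
      exact eq_inv_of_mul_eq_one_left hrel
  -- the proof of the statement
  intro n ε _ hε a m hm hdiv
  choose N B hN hB0 hNB using hpow
  set P : ℕ := ∏ j, N (ε j) with hP
  have hPpos : 0 < P := Finset.prod_pos fun j _ => hN _
  have hPB : ∀ j, ∃ B' : ι → ℤ, B' i₀ = 0 ∧ ε j ^ P = ∏ i, η i ^ B' i := by
    intro j
    obtain ⟨q, hq⟩ : N (ε j) ∣ P := Finset.dvd_prod_of_mem (fun j => N (ε j)) (Finset.mem_univ j)
    refine ⟨fun i => B (ε j) i * q, by simp [hB0], ?_⟩
    rw [hq, pow_mul, hNB, ← Finset.prod_pow]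
    refine Finset.prod_congr rfl fun i _ => ?_
    rw [zpow_mul, zpow_natCast]
  choose B' hB'0 hB' using hPB
  -- powers of products
  have hprod : ∀ z : Fin n → ℤ, (∏ j, ε j ^ z j) ^ P = ∏ i, η i ^ (∑ j, B' j i * z j) := by
    intro z
    have h1 : (∏ j, ε j ^ z j) ^ P = ∏ j, (ε j ^ P) ^ z j := by
      rw [← Finset.prod_pow]
      refine Finset.prod_congr rfl fun j _ => ?_
      rw [← zpow_natCast, ← zpow_natCast, ← zpow_mul, ← zpow_mul, mul_comm]
    rw [h1]
    have h2 : ∀ j, (ε j ^ P) ^ z j = ∏ i, η i ^ (B' j i * z j) := by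
      intro j
      rw [hB' j, ← Finset.prod_zpow]
      refine Finset.prod_congr rfl fun i _ => ?_
      rw [zpow_mul]
    simp only [h2]
    rw [Finset.prod_comm]
    refine Finset.prod_congr rfl fun i _ => ?_
    exact prod_zpow_eq (η i) _ _
  -- the limits
  set A : ι → ℚ_[p] := fun i => ∑ j, (B' j i : ℚ_[p]) * (a j : ℚ_[p]) with hA
  have hlim : ∀ σ : K →+* F, ∑ i, algebraMap ℚ_[p] F (A i) * l σ i = 0 := by
    intro σ
    have h1 : ∀ k, HasLog p (unitVal σ (((∏ j, ε j ^ m k j) ^ P) ^ e))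
        (∑ i, ((∑ j, B' j i * m k j : ℤ) : F) * l σ i) := by
      intro k
      rw [hprod]
      exact hasLog_unit_prod p σ η e (l σ) (hl σ) _
    have h2 : Tendsto (fun k => ∑ i, ((∑ j, B' j i * m k j : ℤ) : F) * l σ i) atTop
        (𝓝 (∑ i, algebraMap ℚ_[p] F (A i) * l σ i)) := by
      refine tendsto_finsetSum _ fun i _ => ?_
      refine Tendsto.mul_const _ ?_
      have h3 : ∀ k, ((∑ j, B' j i * m k j : ℤ) : F) =
          algebraMap ℚ_[p] F (∑ j, (B' j i : ℚ_[p]) * ((m k j : ℤ) : ℚ_[p])) := by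
        intro k
        simp
      simp only [h3]
      refine ((continuous_algebraMap ℚ_[p] F).tendsto _).comp ?_
      refine tendsto_finsetSum _ fun j _ => ?_
      refine Tendsto.const_mul _ ?_
      have h4 := (continuous_subtype_val.tendsto (a j)).comp (hm j)
      exact h4
    have h5 : Tendsto (fun k => ∑ i, ((∑ j, B' j i * m k j : ℤ) : F) * l σ i) atTop (𝓝 0) := by
      rw [Metric.tendsto_atTop]
      intro δ hδ
      obtain ⟨N₀, hN₀⟩ : ∃ N₀ : ℕ, (p : ℝ)⁻¹ ^ N₀ < min δ (1 / 2) :=
        exists_pow_lt_of_lt_one (lt_min hδ (by norm_num))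
          (inv_lt_one_of_one_lt₀ (by exact_mod_cast hp.out.one_lt))
      obtain ⟨k₀, hk₀⟩ := eventually_atTop.1 (hdiv N₀)
      refine ⟨k₀, fun k hk => ?_⟩
      have h6 := hk₀ k hk
      set w : (𝓞 K)ˣ := ∏ j, ε j ^ m k j with hw
      have h7 : ((p : ℕ) : 𝓞 K) ^ N₀ ∣ (((w ^ P) ^ e : (𝓞 K)ˣ) : 𝓞 K) - 1 := by
        refine h6.trans ?_
        rw [← pow_mul]
        push_cast
        exact sub_one_dvd_pow_sub_one (w : 𝓞 K) (P * e)
      obtain ⟨x, hx⟩ := h7
      have h8 : ‖unitVal σ ((w ^ P) ^ e) - 1‖ ≤ (p : ℝ)⁻¹ ^ N₀ := by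
        have h9 : unitVal σ ((w ^ P) ^ e) - 1 = (p : F) ^ N₀ * σ (x : K) := by
          have h10 := congrArg (fun y : 𝓞 K => σ (y : K)) hx
          simpa [unitVal] using h10
        rw [h9, norm_mul, norm_pow, norm_p_eq p]
        calc _ ≤ (p : ℝ)⁻¹ ^ N₀ * 1 :=
              mul_le_mul_of_nonneg_left (norm_embedding_le_one σ x) (by positivity)
          _ = _ := mul_one _
      have h11 := (h1 k).norm_le (h8.trans (hN₀.le.trans (min_le_right _ _)))
      rw [dist_zero_right]
      exact lt_of_le_of_lt (h11.trans h8) (hN₀.trans_le (min_le_left _ _))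
    exact tendsto_nhds_unique h2 h5
  have hAeq : ∀ i, A i = 0 := by
    intro i
    have h1 := hind (fun i => algebraMap ℚ_[p] F (A i)) hlim i i₀
    have h2 : A i₀ = 0 := by simp [hA, hB'0]
    rw [h2, map_zero] at h1
    exact (map_eq_zero _).1 h1
  -- conclusion by the rational trick
  funext j₀
  by_contra hj₀
  have hj₀' : (a j₀ : ℚ_[p]) ≠ 0 := by
    intro h
    apply hj₀
    rw [Pi.zero_apply]
    exact Subtype.ext h
  obtain ⟨z, hz0, hz⟩ := exists_int_solution (V := ℚ_[p]) (fun j => (a j : ℚ_[p])) B' (fun i => by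
    have := hAeq i
    rw [← this]
    refine Finset.sum_congr rfl fun j _ => ?_
    rw [Algebra.smul_def]
    simp) j₀ hj₀'
  have h1 := hprod z
  simp only [hz, zpow_zero, Finset.prod_const_one] at h1
  have h2 := hε (fun j => z j * P) (by
    rw [← h1, ← Finset.prod_pow]
    refine Finset.prod_congr rfl fun j _ => ?_
    rw [zpow_mul, zpow_natCast])
  have h3 := congrFun h2 j₀
  simp only [Pi.zero_apply] at h3
  rcases mul_eq_zero.1 h3 with h4 | h4
  · exact hz0 h4
  · have : (P : ℤ) ≠ 0 := by exact_mod_cast hPpos.ne'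
    exact this h4

end criterion

end Pool.Agent.Helper85_Leo
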