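import Mathlib

/-!
# A minimal theory of the `p`-adic logarithm

`HasLog p u l` says that `(u ^ (p ^ s) - 1) / p ^ s` tends to `l` as `s → ∞`.
-/

set_option autoImplicit false
set_option linter.unusedSectionVars false

open Filter Topology

namespace Pool.Agent.Helper85_Leo

section basic

variable (p : ℕ) [hp : Fact p.Prime] (F : Type*) [NormedField F] [NormedAlgebra ℚ_[p] F]

include p in
theorem charZero_of_padic : CharZero F :=
  (RingHom.charZero_iff (algebraMap ℚ_[p] F).injective).mp inferInstance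

variable {F}

theorem norm_natCast_eq (k : ℕ) : ‖(k : F)‖ = ‖(k : ℚ_[p])‖ := by
  rw [← map_natCast (algebraMap ℚ_[p] F) k, norm_algebraMap']

theorem norm_p_eq : ‖(p : F)‖ = (p : ℝ)⁻¹ := by
  rw [norm_natCast_eq p, Padic.norm_p]

include p in
theorem norm_natCast_le_one (k : ℕ) : ‖(k : F)‖ ≤ 1 := by
  rw [norm_natCast_eq p]
  have := Padic.norm_int_le_one (p := p) (k : ℤ)
  simpa using this

include p in
theorem norm_intCast_le_one (k : ℤ) : ‖(k : F)‖ ≤ 1 := by
  rw [← map_intCast (algebraMap ℚ_[p] F) k, norm_algebraMap']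
  exact Padic.norm_int_le_one k

include p in
/-- `‖k‖⁻¹ ≤ k` for positive integers `k`. -/
theorem norm_natCast_inv_le (k : ℕ) (hk : k ≠ 0) : ‖(k : F)‖⁻¹ ≤ k := by
  rw [norm_natCast_eq p]
  have h : ‖(k : ℚ_[p])‖ = ((padicNorm p (k : ℚ) : ℚ) : ℝ) := by
    have := Padic.eq_padicNorm (p := p) (k : ℚ)
    simpa using this
  rw [h]
  have hk' : (k : ℚ) ≠ 0 := by exact_mod_cast hk
  rw [padicNorm.eq_zpow_of_nonzero hk']
  rw [padicValRat.of_nat]
  have h1 : (p : ℚ) ^ (padicValNat p k) ≤ (k : ℚ) := by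
    exact_mod_cast Nat.le_of_dvd (Nat.pos_of_ne_zero hk) pow_padicValNat_dvd
  have h2 : ((p : ℝ)) ^ (padicValNat p k) ≤ (k : ℝ) := by exact_mod_cast h1
  simpa using h2

theorem tendsto_p_pow : Tendsto (fun s : ℕ => (p : F) ^ s) atTop (𝓝 0) := by
  apply tendsto_pow_atTop_nhds_zero_of_norm_lt_one
  rw [norm_p_eq p]
  have : (1 : ℝ) < p := by exact_mod_cast hp.out.one_lt
  exact inv_lt_one_of_one_lt₀ this

theorem p_ne_zero : (p : F) ≠ 0 := by
  have := charZero_of_padic p F
  exact_mod_cast hp.out.ne_zero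

end basic

section haslog

variable (p : ℕ) [hp : Fact p.Prime] {F : Type*} [NormedField F]

/-- `l` is the `p`-adic logarithm of `u`, as a limit. -/
def HasLog (u l : F) : Prop :=
  Tendsto (fun s : ℕ => (u ^ (p ^ s) - 1) / (p : F) ^ s) atTop (𝓝 l)

variable {p}

theorem HasLog.unique {u l l' : F} (h : HasLog p u l) (h' : HasLog p u l') : l = l' :=
  tendsto_nhds_unique h h'

theorem hasLog_one : HasLog p (1 : F) 0 := by
  unfold HasLog
  simp

variable [NormedAlgebra ℚ_[p] F]

theorem HasLog.tendsto_pow {u l : F} (h : HasLog p u l) :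
    Tendsto (fun s : ℕ => u ^ (p ^ s)) atTop (𝓝 1) := by
  have h1 := (Filter.Tendsto.mul h (tendsto_p_pow (p := p) (F := F))).add_const 1
  have h2 : (fun s : ℕ => (u ^ (p ^ s) - 1) / (p : F) ^ s * (p : F) ^ s + 1) =
      fun s : ℕ => u ^ (p ^ s) := by
    funext s
    rw [div_mul_cancel₀ _ (pow_ne_zero _ (p_ne_zero p))]
    ring
  rw [h2] at h1
  simpa using h1

theorem HasLog.mul {u v a b : F} (hu : HasLog p u a) (hv : HasLog p v b) :
    HasLog p (u * v) (a + b) := by
  have h1 := Filter.Tendsto.add hu ((hu.tendsto_pow).mul hv)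
  rw [one_mul] at h1
  refine Filter.Tendsto.congr (fun s => ?_) h1
  rw [mul_pow]
  ring

theorem HasLog.ne_zero {u a : F} (hu : HasLog p u a) : u ≠ 0 := by
  rintro rfl
  have h1 := hu.tendsto_pow
  have h2 : (fun s : ℕ => (0 : F) ^ (p ^ s)) = fun _ => 0 := by
    funext s
    exact zero_pow (pow_ne_zero _ hp.out.ne_zero)
  rw [h2] at h1
  exact zero_ne_one (tendsto_nhds_unique tendsto_const_nhds h1)

theorem HasLog.inv {u a : F} (hu : HasLog p u a) : HasLog p u⁻¹ (-a) := by
  have h0 := hu.ne_zero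
  have h1 := ((hu.tendsto_pow).inv₀ one_ne_zero).mul (Filter.Tendsto.neg hu)
  rw [inv_one, one_mul] at h1
  refine Filter.Tendsto.congr (fun s => ?_) h1
  have h2 : u ^ (p ^ s) ≠ 0 := pow_ne_zero _ h0
  rw [inv_pow]
  field_simp
  ring

theorem HasLog.pow {u a : F} (hu : HasLog p u a) (k : ℕ) : HasLog p (u ^ k) (k * a) := by
  induction k with
  | zero => simpa using hasLog_one
  | succ k ih =>
    rw [pow_succ]
    have := ih.mul hu
    convert this using 1
    push_cast
    ring

theorem HasLog.zpow {u a : F} (hu : HasLog p u a) (k : ℤ) : HasLog p (u ^ k) (k * a) := by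
  obtain ⟨m, rfl | rfl⟩ := k.eq_nat_or_neg
  · simpa using hu.pow m
  · have := (hu.pow m).inv
    simpa using this

theorem hasLog_prod {ι : Type*} (s : Finset ι) (u a : ι → F) (h : ∀ i ∈ s, HasLog p (u i) (a i)) :
    HasLog p (∏ i ∈ s, u i) (∑ i ∈ s, a i) := by
  classical
  induction s using Finset.induction_on with
  | empty => simpa using hasLog_one
  | insert i s his ih =>
    rw [Finset.prod_insert his, Finset.sum_insert his]
    exact (h i (Finset.mem_insert_self _ _)).mul
      (ih fun j hj => h j (Finset.mem_insert_of_mem hj))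

/-- Real estimate `k / 2 ^ (k - 1) ≤ 1`. -/
theorem real_est (k : ℕ) : ((k + 1 : ℕ) : ℝ) * (1 / 2) ^ k ≤ 1 := by
  have h : k + 1 ≤ 2 ^ k := Nat.lt_pow_self (by norm_num)
  have h2 : ((k + 1 : ℕ) : ℝ) ≤ 2 ^ k := by exact_mod_cast h
  rw [one_div, inv_pow]
  rw [← div_eq_mul_inv]
  exact (div_le_one (by positivity)).2 h2

variable (p F) in
/-- The binomial quotient `C(p^s, k+1) / p^s = C(p^s - 1, k) / (k + 1)`. -/
theorem choose_div (s k : ℕ) :
    ((p ^ s).choose (k + 1) : F) / (p : F) ^ s =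
      (((p ^ s - 1).choose k : ℕ) : F) / ((k + 1 : ℕ) : F) := by
  have := charZero_of_padic p F
  have hpos : 0 < p ^ s := pow_pos hp.out.pos _
  obtain ⟨q, hq⟩ : ∃ q, p ^ s = q + 1 := ⟨p ^ s - 1, by omega⟩
  have h := Nat.add_one_mul_choose_eq q k
  have hq' : (p : F) ^ s = ((q + 1 : ℕ) : F) := by
    rw [← hq]; push_cast; ring
  rw [hq', hq]
  have h1 : ((q + 1 : ℕ) : F) ≠ 0 := by exact_mod_cast Nat.succ_ne_zero q
  have h2 : ((k + 1 : ℕ) : F) ≠ 0 := by exact_mod_cast Nat.succ_ne_zero k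
  rw [div_eq_div_iff h1 h2, Nat.add_sub_cancel]
  have h3 : (((q + 1) * q.choose k : ℕ) : F) = (((q + 1).choose (k + 1) * (k + 1) : ℕ) : F) := by
    rw [h]
  push_cast at h3 ⊢
  rw [← h3]
  ring

/-- Expansion of `((1 + x)^(p^s) - 1) / p^s`. -/
theorem expand_quot (x : F) (s : ℕ) :
    ((1 + x) ^ (p ^ s) - 1) / (p : F) ^ s =
      ∑ k ∈ Finset.range (p ^ s),
        (((p ^ s - 1).choose k : ℕ) : F) / ((k + 1 : ℕ) : F) * x ^ (k + 1) := by
  have h : (1 + x) ^ (p ^ s) - 1 =
      ∑ k ∈ Finset.range (p ^ s), ((p ^ s).choose (k + 1) : F) * x ^ (k + 1) := by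
    rw [add_comm 1 x, add_pow, Finset.sum_range_succ']
    simp [mul_comm]
  rw [h, Finset.sum_div]
  refine Finset.sum_congr rfl fun k _ => ?_
  rw [← choose_div p F s k]
  ring

variable (p) in
theorem norm_coef_le (x : F) (s k : ℕ) :
    ‖(((p ^ s - 1).choose k : ℕ) : F) / ((k + 1 : ℕ) : F) * x ^ (k + 1)‖ ≤
      ((k + 1 : ℕ) : ℝ) * ‖x‖ ^ (k + 1) := by
  rw [norm_mul, norm_div, norm_pow]
  refine mul_le_mul_of_nonneg_right ?_ (by positivity)
  rw [div_eq_mul_inv]
  calc _ ≤ 1 * ‖((k + 1 : ℕ) : F)‖⁻¹ := by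
        exact mul_le_mul_of_nonneg_right (norm_natCast_le_one p _) (by positivity)
    _ ≤ _ := by rw [one_mul]; exact norm_natCast_inv_le p _ (Nat.succ_ne_zero k)

variable [IsUltrametricDist F]

/-- Continuity of the logarithm at `1`. -/
theorem HasLog.norm_le {u l : F} (h : HasLog p u l) (hu : ‖u - 1‖ ≤ 1 / 2) : ‖l‖ ≤ ‖u - 1‖ := by
  have h1 : ∀ s : ℕ, ‖(u ^ (p ^ s) - 1) / (p : F) ^ s‖ ≤ ‖u - 1‖ := by
    intro s
    obtain ⟨x, hx⟩ : ∃ x, u = 1 + x := ⟨u - 1, by ring⟩
    have hx' : u - 1 = x := by rw [hx]; ring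
    rw [hx'] at hu ⊢
    rw [hx, expand_quot]
    refine IsUltrametricDist.norm_sum_le_of_forall_le_of_nonneg (norm_nonneg _) fun k _ => ?_
    refine (norm_coef_le p x s k).trans ?_
    rw [pow_succ, ← mul_assoc]
    have h2 : ((k + 1 : ℕ) : ℝ) * ‖x‖ ^ k ≤ 1 := by
      refine le_trans ?_ (real_est k)
      exact mul_le_mul_of_nonneg_left (pow_le_pow_left₀ (norm_nonneg _) hu k) (by positivity)
    calc ((k + 1 : ℕ) : ℝ) * ‖x‖ ^ k * ‖x‖ ≤ 1 * ‖x‖ :=
          mul_le_mul_of_nonneg_right h2 (norm_nonneg _)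
      _ = ‖x‖ := one_mul _
  exact le_of_tendsto (Filter.Tendsto.norm h) (Eventually.of_forall h1)

theorem summable_real_bound {r : ℝ} (h0 : 0 ≤ r) (h1 : r < 1) :
    Summable fun k : ℕ => ((k + 1 : ℕ) : ℝ) * r ^ (k + 1) := by
  have h := summable_pow_mul_geometric_of_norm_lt_one (R := ℝ) 1 (r := r)
    (by rw [Real.norm_of_nonneg h0]; exact h1)
  have h' := (summable_nat_add_iff (f := fun k : ℕ => ((k : ℝ)) ^ 1 * r ^ k) 1).2 h
  refine h'.congr fun k => ?_
  simp

variable [CompleteSpace F]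

/-- The logarithm of `1 - y` is given by the usual series. -/
theorem hasLog_one_sub {y : F} (hy : ‖y‖ < 1) :
    HasLog p (1 - y) (-∑' k : ℕ, y ^ (k + 1) / ((k + 1 : ℕ) : F)) := by
  have := charZero_of_padic p F
  unfold HasLog
  have key : Tendsto (fun s : ℕ => ∑' k : ℕ,
      (((p ^ s - 1).choose k : ℕ) : F) / ((k + 1 : ℕ) : F) * (-y) ^ (k + 1)) atTop
      (𝓝 (∑' k : ℕ, -(y ^ (k + 1) / ((k + 1 : ℕ) : F)))) := by
    refine tendsto_tsum_of_dominated_convergence
      (summable_real_bound (norm_nonneg y) hy) (fun k => ?_) (Eventually.of_forall fun s k => ?_)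
    · -- termwise limit
      have h1 : Tendsto (fun s : ℕ => (((p ^ s - 1).choose k : ℕ) : F)) atTop (𝓝 ((-1) ^ k)) := by
        -- `k! * C(N, k) = N (N-1) ... (N-k+1)` with `N = p^s - 1 → -1`
        have h2 : ∀ s : ℕ, (k.factorial : F) * (((p ^ s - 1).choose k : ℕ) : F) =
            ∏ i ∈ Finset.range k, ((p : F) ^ s - 1 - (i : F)) := by
          intro s
          have hpos : 0 < p ^ s := pow_pos hp.out.pos _
          obtain ⟨q, hq⟩ : ∃ q, p ^ s = q + 1 := ⟨p ^ s - 1, by omega⟩
          have hq' : (p : F) ^ s = ((q : ℕ) : F) + 1 := by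
            have : ((p ^ s : ℕ) : F) = ((q + 1 : ℕ) : F) := by rw [hq]
            push_cast at this
            exact this
          rw [hq', hq, Nat.add_sub_cancel]
          have h3 : (k.factorial * q.choose k : ℕ) = q.descFactorial k :=
            (Nat.descFactorial_eq_factorial_mul_choose q k).symm
          have h4 : (k.factorial : F) * ((q.choose k : ℕ) : F) = ((q.descFactorial k : ℕ) : F) := by
            rw [← h3]; push_cast; ring
          rw [h4]
          have h5 : ∀ k : ℕ, ((q.descFactorial k : ℕ) : F) =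
              ∏ i ∈ Finset.range k, ((q : F) - (i : F)) := by
            intro k
            induction k with
            | zero => simp
            | succ k ih =>
              rw [Nat.descFactorial_succ, Finset.prod_range_succ, ← ih]
              push_cast
              rcases le_or_gt k q with hkq | hkq
              · rw [Nat.cast_sub hkq]; ring
              · rw [Nat.descFactorial_of_lt hkq]; simp
          rw [h5]
          refine Finset.prod_congr rfl fun i _ => ?_
          ring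
        have h6 : Tendsto (fun s : ℕ => ∏ i ∈ Finset.range k, ((p : F) ^ s - 1 - (i : F))) atTop
            (𝓝 (∏ i ∈ Finset.range k, ((0 : F) - 1 - (i : F)))) := by
          refine tendsto_finsetProd _ fun i _ => ?_
          exact ((tendsto_p_pow p).sub_const 1).sub_const _
        have h7 : ∏ i ∈ Finset.range k, ((0 : F) - 1 - (i : F)) = (k.factorial : F) * (-1) ^ k := by
          clear h2 h6
          induction k with
          | zero => simp
          | succ k ih =>
            rw [Finset.prod_range_succ, ih, Nat.factorial_succ]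
            push_cast
            ring
        have hk : (k.factorial : F) ≠ 0 := by exact_mod_cast k.factorial_ne_zero
        have h8 : (fun s : ℕ => (((p ^ s - 1).choose k : ℕ) : F)) = fun s : ℕ =>
            (k.factorial : F)⁻¹ * ∏ i ∈ Finset.range k, ((p : F) ^ s - 1 - (i : F)) := by
          funext s
          rw [← h2 s]
          field_simp
        rw [h8]
        have h9 := h6.const_mul (k.factorial : F)⁻¹
        rw [h7] at h9
        convert h9 using 2
        field_simp
      have h10 := (h1.div_const ((k + 1 : ℕ) : F)).mul_const ((-y) ^ (k + 1))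
      convert h10 using 2
      rw [neg_pow y (k + 1)]
      have : ((-1 : F)) ^ k * (-1) ^ (k + 1) = -1 := by
        rw [← pow_add, show k + (k + 1) = 2 * k + 1 by ring, pow_succ, pow_mul]
        simp
      calc -(y ^ (k + 1) / ((k + 1 : ℕ) : F)) =
          ((-1 : F) ^ k * (-1) ^ (k + 1)) * (y ^ (k + 1) / ((k + 1 : ℕ) : F)) := by rw [this]; ring
        _ = _ := by ring
    · have := norm_coef_le p (-y) s k
      rwa [norm_neg] at this
  rw [tsum_neg] at key
  refine key.congr fun s => ?_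
  rw [show (1 : F) - y = 1 + (-y) by ring, expand_quot (-y) s]
  rw [tsum_eq_sum]
  intro k hk
  have hk' : p ^ s ≤ k := by simpa using hk
  have hpos : 0 < p ^ s := pow_pos hp.out.pos _
  rw [Nat.choose_eq_zero_of_lt (by omega : p ^ s - 1 < k)]
  simp

end haslog

end Pool.Agent.Helper85_Leo
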