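import Mathlib

/-!
# A Strassman type lemma

If a power series with coefficients `a k` vanishes at `N` distinct points of the closed unit disc,
then every coefficient is bounded by the coefficients of index at least `N`.
-/

set_option autoImplicit false
set_option linter.unusedSectionVars false

open Filter Topology Polynomial

namespace Pool.Agent.Helper85_Leo

variable {F : Type*} [NormedField F] [IsUltrametricDist F]

theorem norm_tsum_le_of_forall (f : ℕ → F) {C : ℝ} (hC : 0 ≤ C) (h : ∀ k, ‖f k‖ ≤ C) :
    ‖∑' k, f k‖ ≤ C := by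
  by_cases hf : Summable f
  · have h1 := hf.hasSum.tendsto_sum_nat
    exact le_of_tendsto (Filter.Tendsto.norm h1) (Eventually.of_forall fun n =>
      IsUltrametricDist.norm_sum_le_of_forall_le_of_nonneg hC fun i _ => h i)
  · rw [tsum_eq_zero_of_not_summable hf]
    simpa using hC

variable (F) in
/-- The closed unit ball as a subring. -/
def unitBall : Subring F where
  carrier := {x | ‖x‖ ≤ 1}
  mul_mem' := by
    intro a b ha hb
    simp only [Set.mem_ofPred_eq] at *
    rw [norm_mul]
    exact mul_le_one₀ ha (norm_nonneg _) hb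
  one_mem' := by simp
  add_mem' := by
    intro a b ha hb
    simp only [Set.mem_ofPred_eq] at *
    exact (IsUltrametricDist.norm_add_le_max a b).trans (max_le ha hb)
  zero_mem' := by simp
  neg_mem' := by
    intro a ha
    simpa using ha

/-- Coefficients of the remainder of a power of `X` by a polynomial with integral roots. -/
theorem norm_coeff_modByMonic_le (Z : Finset F) (hZ : ∀ z ∈ Z, ‖z‖ ≤ 1) (k i : ℕ) :
    ‖((X ^ k : F[X]) %ₘ (∏ z ∈ Z, (X - C z))).coeff i‖ ≤ 1 := by
  classical
  set W₀ : (unitBall F)[X] := ∏ z ∈ Z.attach, (X - C (⟨z.1, hZ z.1 z.2⟩ : unitBall F)) with hW₀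
  have hmonic : W₀.Monic := monic_prod_of_monic _ _ fun z _ => monic_X_sub_C _
  have hmap : W₀.map (unitBall F).subtype = ∏ z ∈ Z, (X - C z) := by
    rw [hW₀, Polynomial.map_prod, ← Finset.prod_attach Z]
    refine Finset.prod_congr rfl fun z _ => ?_
    simp
  have h1 : (X ^ k : F[X]) = (X ^ k : (unitBall F)[X]).map (unitBall F).subtype := by simp
  rw [← hmap, h1, ← Polynomial.map_modByMonic _ hmonic, Polynomial.coeff_map]
  exact (((X ^ k : (unitBall F)[X]) %ₘ W₀).coeff i).2

/-- A Strassman type bound. -/
theorem strassman (Z : Finset F) (hZ : ∀ z ∈ Z, ‖z‖ ≤ 1) [CompleteSpace F]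
    (a : ℕ → F) (hs : Summable fun k => ‖a k‖)
    (hzero : ∀ z ∈ Z, ∑' k, a k * z ^ k = 0) {C₀ : ℝ} (hC : 0 ≤ C₀)
    (hb : ∀ k, Z.card ≤ k → ‖a k‖ ≤ C₀) (i : ℕ) : ‖a i‖ ≤ C₀ := by
  classical
  rcases le_or_gt Z.card i with hi | hi
  · exact hb i hi
  set N := Z.card with hN
  set W : F[X] := ∏ z ∈ Z, (X - C z) with hW
  have hWm : W.Monic := monic_prod_of_monic _ _ fun z _ => monic_X_sub_C _
  have hWd : W.natDegree = N := by
    rw [hW, natDegree_prod_of_monic _ _ fun z _ => monic_X_sub_C _]
    simp [hN]
  have hW1 : W ≠ 1 := by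
    intro h
    rw [h] at hWd
    simp at hWd
    omega
  set c : ℕ → ℕ → F := fun k j => ((X ^ k : F[X]) %ₘ W).coeff j with hc
  have hcn : ∀ k j, ‖c k j‖ ≤ 1 := fun k j => norm_coeff_modByMonic_le Z hZ k j
  have hcs : ∀ k, k < N → ∀ j, c k j = if k = j then 1 else 0 := by
    intro k hk j
    have h1 : (X ^ k : F[X]) %ₘ W = X ^ k := by
      rw [Polynomial.modByMonic_eq_self_iff hWm]
      rw [Polynomial.degree_X_pow, Polynomial.degree_eq_natDegree hWm.ne_zero, hWd]
      exact_mod_cast hk
    simp only [hc, h1, Polynomial.coeff_X_pow]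
    by_cases h : k = j
    · simp [h]
    · simp [h, Ne.symm h]
  have heval : ∀ z ∈ Z, ∀ k, z ^ k = ∑ j ∈ Finset.range N, c k j * z ^ j := by
    intro z hz k
    have h1 : W.eval z = 0 := by
      rw [hW, Polynomial.eval_prod]
      exact Finset.prod_eq_zero hz (by simp)
    have h2 : ((X ^ k : F[X]) %ₘ W).eval z = z ^ k := by
      have h3 := congrArg (Polynomial.eval z) (Polynomial.modByMonic_add_div (X ^ k : F[X]) W)
      rw [Polynomial.eval_add, Polynomial.eval_mul, h1, zero_mul, add_zero] at h3
      simpa using h3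
    rw [← h2]
    exact Polynomial.eval_eq_sum_range' (by
      have := Polynomial.natDegree_modByMonic_lt (X ^ k : F[X]) hWm hW1
      omega) z
  have hsum : ∀ j, Summable fun k => a k * c k j := by
    intro j
    refine Summable.of_norm_bounded hs fun k => ?_
    rw [norm_mul]
    exact mul_le_of_le_one_right (norm_nonneg _) (hcn k j)
  set A : ℕ → F := fun j => ∑' k, a k * c k j with hA
  have hA0 : ∀ j, j < N → A j = 0 := by
    have hQ : (∑ j ∈ Finset.range N, Polynomial.C (A j) * X ^ j : F[X]) = 0 := by
      refine Polynomial.eq_zero_of_natDegree_lt_card_of_eval_eq_zero' _ Z ?_ ?_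
      · intro z hz
        rw [Polynomial.eval_finsetSum]
        have h1 := hzero z hz
        have h2 : ∀ k, a k * z ^ k = ∑ j ∈ Finset.range N, a k * c k j * z ^ j := by
          intro k
          conv_lhs => rw [heval z hz k]
          rw [Finset.mul_sum]
          exact Finset.sum_congr rfl fun j _ => by ring
        rw [tsum_congr h2, Summable.tsum_finsetSum] at h1
        · rw [← h1]
          refine Finset.sum_congr rfl fun j _ => ?_
          rw [Polynomial.eval_mul, Polynomial.eval_C, Polynomial.eval_pow, Polynomial.eval_X,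
            ← tsum_mul_right]
        · intro j _
          exact (hsum j).mul_right _
      · rw [← hN]
        refine lt_of_le_of_lt (Polynomial.natDegree_sum_le_of_forall_le (n := N - 1) _ _
          fun j hj => ?_) (by omega)
        refine (Polynomial.natDegree_C_mul_X_pow_le _ _).trans ?_
        have := Finset.mem_range.1 hj
        omega
    intro j hj
    have h1 := congrArg (fun q => Polynomial.coeff q j) hQ
    simp only [Polynomial.finsetSum_coeff, Polynomial.coeff_C_mul, Polynomial.coeff_X_pow,
      Polynomial.coeff_zero] at h1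
    rw [Finset.sum_eq_single j] at h1
    · simpa using h1
    · intro b _ hbj
      simp [Ne.symm hbj]
    · intro h
      exact absurd (Finset.mem_range.2 hj) h
  have h1 := hA0 i hi
  set b : ℕ → F := fun k => if k < N then 0 else a k * c k i with hbdef
  have hab : ∀ k, a k * c k i = (if k = i then a i else 0) + b k := by
    intro k
    by_cases hk : k < N
    · rw [hcs k hk i]
      simp only [hbdef, hk, if_true, add_zero]
      by_cases h : k = i
      · simp [h]
      · simp [h]
    · have : k ≠ i := by omega
      simp [hbdef, hk, this]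
  have hbs : Summable b := by
    refine Summable.of_norm_bounded hs fun k => ?_
    simp only [hbdef]
    split_ifs
    · simp
    · rw [norm_mul]
      exact mul_le_of_le_one_right (norm_nonneg _) (hcn k i)
  have h2 : A i = a i + ∑' k, b k := by
    simp only [hA]
    rw [tsum_congr hab, Summable.tsum_add (hasSum_ite_eq i (a i)).summable hbs, tsum_ite_eq]
  rw [h1] at h2
  have h3 : a i = -∑' k, b k := by
    rw [eq_neg_iff_add_eq_zero]
    exact h2.symm
  rw [h3, norm_neg]
  refine norm_tsum_le_of_forall b hC fun k => ?_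
  simp only [hbdef]
  split_ifs with hk
  · simpa using hC
  · rw [norm_mul]
    calc _ ≤ C₀ * 1 := mul_le_mul (hb k (by omega)) (hcn k i) (norm_nonneg _) hC
      _ = C₀ := mul_one _

end Pool.Agent.Helper85_Leo
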