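import Pool.Agent.Helper85_Leo.Family

/-!
# Signature of the fields of the family
-/

set_option autoImplicit false
set_option linter.unusedSectionVars false

open Filter Topology Polynomial NumberField

namespace Pool.Agent.Helper85_Leo

/-- Two embeddings agreeing on a primitive element are equal. -/
theorem embedding_injective {K F : Type*} [Field K] [NumberField K] [Field F] [CharZero F] (θ : K)
    (hgen : IntermediateField.adjoin ℚ {θ} = ⊤) :
    Function.Injective fun σ : K →+* F => σ θ := by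
  intro σ τ h
  let E : IntermediateField ℚ K :=
    { RingHom.eqLocusField σ τ with
      algebraMap_mem' := fun q => by
        change σ (algebraMap ℚ K q) = τ (algebraMap ℚ K q)
        simp }
  have h1 : IntermediateField.adjoin ℚ ({θ} : Set K) ≤ E := by
    rw [IntermediateField.adjoin_le_iff]
    rintro x hx
    rw [Set.mem_singleton_iff.1 hx]
    exact h
  rw [hgen] at h1
  ext x
  exact h1 (IntermediateField.mem_top (x := x))

section

variable {K : Type} [Field K] [NumberField K] (r₁ r₂ : ℕ) (M : ℤ) (θ : K)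

/-- `θ` is a primitive element of `K`, and a root of `famPoly r₁ r₂ M - 1`, where
`[K : ℚ] = r₁ + 2 r₂`. -/
structure IsFam : Prop where
  gen : IntermediateField.adjoin ℚ {θ} = ⊤
  root : aeval θ (famPoly r₁ r₂ M) = 1
  deg : Module.finrank ℚ K = r₁ + 2 * r₂

variable {r₁ r₂ M θ}

theorem IsFam.prod_eq_one (h : IsFam r₁ r₂ M θ) (σ : K →+* ℂ) :
    ∏ β, (σ θ - (M : ℂ) * bval r₁ r₂ β) = 1 := by
  rw [← aeval_famPoly]
  have h1 : σ (aeval θ (famPoly r₁ r₂ M)) = aeval (σ θ) (famPoly r₁ r₂ M) := by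
    rw [aeval_def, aeval_def, hom_eval₂]
    congr 1
    exact RingHom.ext_int _ _
  rw [← h1, h.root, map_one]

theorem IsFam.map_eq_prod (h : IsFam r₁ r₂ M θ) :
    (famPoly r₁ r₂ M - 1).map (Int.castRingHom ℂ) = ∏ σ : K →+* ℂ, (X - C (σ θ)) := by
  classical
  have hnpos : 0 < r₁ + 2 * r₂ := by
    rw [← h.deg]; exact Module.finrank_pos
  have hmon : (famPoly r₁ r₂ M - 1).Monic := by
    refine (famPoly_monic r₁ r₂ M).sub_of_left ?_
    rw [degree_one, degree_eq_natDegree (famPoly_monic r₁ r₂ M).ne_zero, famPoly_natDegree]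
    exact_mod_cast hnpos
  have hdeg : (famPoly r₁ r₂ M - 1).natDegree = r₁ + 2 * r₂ := by
    rw [← famPoly_natDegree r₁ r₂ M]
    exact natDegree_sub_eq_left_of_natDegree_lt
      (by rw [natDegree_one, famPoly_natDegree]; exact hnpos)
  set A : ℂ[X] := (famPoly r₁ r₂ M - 1).map (Int.castRingHom ℂ) with hA
  set B : ℂ[X] := ∏ σ : K →+* ℂ, (X - C (σ θ)) with hB
  have hAm : A.Monic := hmon.map _
  have hBm : B.Monic := monic_prod_of_monic _ _ fun σ _ => monic_X_sub_C _
  have hAd : A.natDegree = r₁ + 2 * r₂ := by rw [hA, hmon.natDegree_map, hdeg]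
  have hBd : B.natDegree = r₁ + 2 * r₂ := by
    rw [hB, natDegree_prod_of_monic _ _ fun σ _ => monic_X_sub_C _]
    simp only [natDegree_X_sub_C, Finset.sum_const, Finset.card_univ, smul_eq_mul, mul_one]
    rw [Embeddings.card, h.deg]
  have hlt : (A - B).degree < A.degree := by
    refine degree_sub_lt_left ?_ hAm.ne_zero ?_
    · rw [degree_eq_natDegree hAm.ne_zero, degree_eq_natDegree hBm.ne_zero, hAd, hBd]
    · rw [hAm.leadingCoeff, hBm.leadingCoeff]
  have hzero : A - B = 0 := by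
    by_contra hne
    have hlt' : (A - B).natDegree < r₁ + 2 * r₂ := by
      rw [← hAd]
      exact natDegree_lt_natDegree hne hlt
    apply hne
    refine eq_zero_of_natDegree_lt_card_of_eval_eq_zero _ (f := fun σ : K →+* ℂ => σ θ)
      (embedding_injective θ h.gen) ?_ ?_
    · intro σ
      rw [eval_sub]
      have h1 : A.eval (σ θ) = 0 := by
        rw [hA, Polynomial.map_sub, eval_sub, famPoly_map, eval_prod, Polynomial.map_one, eval_one]
        have := h.prod_eq_one σ
        simp only [eval_sub, eval_X, eval_C]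
        rw [this, sub_self]
      have h2 : B.eval (σ θ) = 0 := by
        rw [hB, eval_prod]
        exact Finset.prod_eq_zero (Finset.mem_univ σ) (by simp)
      rw [h1, h2, sub_self]
    · rw [Embeddings.card, h.deg]
      exact hlt'
  exact sub_eq_zero.1 hzero

/-- Near each `M β` there is a conjugate of `θ`. -/
theorem IsFam.exists_near (h : IsFam r₁ r₂ M θ) (β : RootIdx r₁ r₂) :
    ∃ σ : K →+* ℂ, ‖σ θ - (M : ℂ) * bval r₁ r₂ β‖ ≤ 1 := by
  classical
  by_contra hcon
  push Not at hcon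
  have h1 := congrArg (Polynomial.eval ((M : ℂ) * bval r₁ r₂ β)) h.map_eq_prod
  rw [Polynomial.map_sub, eval_sub, famPoly_map, eval_prod, Polynomial.map_one, eval_one,
    Finset.prod_eq_zero (Finset.mem_univ β) (by simp), eval_prod] at h1
  simp only [eval_sub, eval_X, eval_C] at h1
  have h2 := congrArg norm h1
  rw [norm_prod] at h2
  have h3 : ∀ σ : K →+* ℂ, 1 < ‖(M : ℂ) * bval r₁ r₂ β - σ θ‖ := by
    intro σ
    rw [norm_sub_rev]
    exact hcon σ
  have h4 : 1 < ∏ σ : K →+* ℂ, ‖(M : ℂ) * bval r₁ r₂ β - σ θ‖ := by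
    have h5 : Nonempty (K →+* ℂ) := inferInstance
    obtain ⟨σ₀⟩ := h5
    rw [← Finset.mul_prod_erase Finset.univ _ (Finset.mem_univ σ₀)]
    refine one_lt_mul_of_lt_of_le (h3 σ₀) ?_
    calc (1 : ℝ) = ∏ _σ ∈ Finset.univ.erase σ₀, (1 : ℝ) := by simp
      _ ≤ _ := Finset.prod_le_prod (fun _ _ => zero_le_one) fun σ _ => (h3 σ).le
  rw [← h2] at h4
  simp at h4

theorem bval_near_unique (hM : 3 ≤ M) {β β' : RootIdx r₁ r₂} {z : ℂ}
    (h : ‖z - (M : ℂ) * bval r₁ r₂ β‖ ≤ 1) (h' : ‖z - (M : ℂ) * bval r₁ r₂ β'‖ ≤ 1) : β = β' := by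
  by_contra hne
  have h1 := one_le_norm_bval_sub r₁ r₂ hne
  have hM' : (3 : ℝ) ≤ M := by exact_mod_cast hM
  have h2 : ‖(M : ℂ) * bval r₁ r₂ β - (M : ℂ) * bval r₁ r₂ β'‖ ≤ 2 := by
    have h3 : (M : ℂ) * bval r₁ r₂ β - (M : ℂ) * bval r₁ r₂ β' =
        (z - (M : ℂ) * bval r₁ r₂ β') - (z - (M : ℂ) * bval r₁ r₂ β) := by ring
    rw [h3]
    refine (norm_sub_le _ _).trans ?_
    linarith
  rw [← mul_sub, norm_mul] at h2
  have h4 : ‖(M : ℂ)‖ = M := by
    rw [Complex.norm_intCast]
    exact abs_of_nonneg (by linarith)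
  rw [h4] at h2
  nlinarith

/-- The bijection between indices and embeddings. -/
theorem IsFam.exists_equiv (h : IsFam r₁ r₂ M θ) (hM : 3 ≤ M) :
    ∃ e : RootIdx r₁ r₂ ≃ (K →+* ℂ), ∀ β, ‖e β θ - (M : ℂ) * bval r₁ r₂ β‖ ≤ 1 := by
  classical
  choose E hE using h.exists_near
  have hinj : Function.Injective E := by
    intro β β' hββ
    have h1 := hE β
    rw [hββ] at h1
    exact bval_near_unique hM h1 (hE β')
  have hbij : Function.Bijective E := by
    rw [Fintype.bijective_iff_injective_and_card]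
    refine ⟨hinj, ?_⟩
    rw [card_rootIdx, Embeddings.card, h.deg]
  exact ⟨Equiv.ofBijective E hbij, hE⟩

/-- The signature. -/
theorem IsFam.nrRealPlaces (h : IsFam r₁ r₂ M θ) (hM : 3 ≤ M) :
    InfinitePlace.nrRealPlaces K = r₁ := by
  classical
  obtain ⟨e, he⟩ := h.exists_equiv hM
  have hM' : (3 : ℝ) ≤ M := by exact_mod_cast hM
  have key : ∀ β : RootIdx r₁ r₂, (∃ i, Sum.inl i = β) ↔ ComplexEmbedding.IsReal (e β) := by
    intro β
    constructor
    · rintro ⟨i, rfl⟩
      rw [ComplexEmbedding.isReal_iff]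
      have h1 : ‖ComplexEmbedding.conjugate (e (Sum.inl i)) θ -
          (M : ℂ) * bval r₁ r₂ (Sum.inl i)‖ ≤ 1 := by
        have h2 := he (Sum.inl i)
        rw [← Complex.norm_conj] at h2
        rw [ComplexEmbedding.conjugate_coe_eq]
        simpa [bval] using h2
      obtain ⟨β', hβ'⟩ := e.surjective (ComplexEmbedding.conjugate (e (Sum.inl i)))
      have h3 := he β'
      rw [hβ'] at h3
      have h4 := bval_near_unique hM h1 h3
      rw [← hβ', ← h4]
    · intro hreal
      rcases β with i | ⟨j, b⟩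
      · exact ⟨i, rfl⟩
      · exfalso
        have h1 : (e (Sum.inr (j, b)) θ).im = 0 := by
          have h2 := RingHom.congr_fun (ComplexEmbedding.isReal_iff.1 hreal) θ
          rw [ComplexEmbedding.conjugate_coe_eq] at h2
          exact Complex.conj_eq_iff_im.1 h2
        have h2 := (Complex.abs_im_le_norm _).trans (he (Sum.inr (j, b)))
        rw [Complex.sub_im, h1] at h2
        have hj : (0 : ℝ) ≤ (j : ℕ) := by positivity
        have h3 : |((M : ℂ) * bval r₁ r₂ (Sum.inr (j, b))).im| = M * ((j : ℕ) + 1) := by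
          cases b
          · simp [bval]
            rw [abs_of_nonneg (by positivity), abs_of_nonneg (by linarith)]
          · simp [bval]
            rw [abs_of_nonneg (by positivity), abs_of_nonneg (by linarith)]
        rw [zero_sub, abs_neg, h3] at h2
        nlinarith
  rw [← InfinitePlace.card_real_embeddings]
  have h1 : Fintype.card {φ : K →+* ℂ // ComplexEmbedding.IsReal φ} =
      Fintype.card {β : RootIdx r₁ r₂ // ∃ i, Sum.inl i = β} :=
    Fintype.card_congr (e.subtypeEquiv key).symm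
  have h2 : Fintype.card {β : RootIdx r₁ r₂ // ∃ i, Sum.inl i = β} = Fintype.card (Fin r₁) :=
    Fintype.card_congr (Equiv.ofInjective _ Sum.inl_injective).symm
  rw [h1, h2, Fintype.card_fin]

theorem IsFam.nrComplexPlaces (h : IsFam r₁ r₂ M θ) (hM : 3 ≤ M) :
    InfinitePlace.nrComplexPlaces K = r₂ := by
  have h1 := InfinitePlace.card_add_two_mul_card_eq_rank K
  rw [h.nrRealPlaces hM, h.deg] at h1
  omega

theorem IsFam.rank (h : IsFam r₁ r₂ M θ) (hM : 3 ≤ M) :
    Units.rank K + 1 = r₁ + r₂ := by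
  have h1 := InfinitePlace.card_eq_nrRealPlaces_add_nrComplexPlaces K
  rw [h.nrRealPlaces hM, h.nrComplexPlaces hM] at h1
  have h2 : 0 < r₁ + 2 * r₂ := by rw [← h.deg]; exact Module.finrank_pos
  rw [Units.rank, h1]
  omega

/-- A conjugate of `θ` is very close to `M β`. -/
theorem IsFam.near_le (h : IsFam r₁ r₂ M θ) (hM : 3 ≤ M) (σ : K →+* ℂ) (β : RootIdx r₁ r₂)
    (hβ : ‖σ θ - (M : ℂ) * bval r₁ r₂ β‖ ≤ 1) :
    ‖σ θ - (M : ℂ) * bval r₁ r₂ β‖ * ((M : ℝ) - 1) ^ (r₁ + 2 * r₂ - 1) ≤ 1 := by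
  classical
  have hM' : (3 : ℝ) ≤ M := by exact_mod_cast hM
  have h1 := congrArg norm (h.prod_eq_one σ)
  rw [norm_prod, norm_one, ← Finset.mul_prod_erase Finset.univ _ (Finset.mem_univ β)] at h1
  rw [← h1]
  refine mul_le_mul_of_nonneg_left ?_ (norm_nonneg _)
  have h2 : (Finset.univ.erase β).card = r₁ + 2 * r₂ - 1 := by
    rw [Finset.card_erase_of_mem (Finset.mem_univ β), Finset.card_univ, card_rootIdx]
  rw [← h2, ← Finset.prod_const]
  refine Finset.prod_le_prod (fun _ _ => by linarith) fun β' hβ' => ?_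
  have hne : β ≠ β' := (Finset.ne_of_mem_erase hβ').symm
  have h3 := one_le_norm_bval_sub r₁ r₂ hne
  have h4 : ‖(M : ℂ)‖ = M := by
    rw [Complex.norm_intCast]
    exact abs_of_nonneg (by linarith)
  have h5 : (M : ℝ) ≤ ‖(M : ℂ) * bval r₁ r₂ β - (M : ℂ) * bval r₁ r₂ β'‖ := by
    rw [← mul_sub, norm_mul, h4]
    nlinarith
  have h6 : (M : ℂ) * bval r₁ r₂ β - (M : ℂ) * bval r₁ r₂ β' =
      (σ θ - (M : ℂ) * bval r₁ r₂ β') - (σ θ - (M : ℂ) * bval r₁ r₂ β) := by ring
  rw [h6] at h5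
  have h7 := norm_sub_le (σ θ - (M : ℂ) * bval r₁ r₂ β') (σ θ - (M : ℂ) * bval r₁ r₂ β)
  linarith

end

end Pool.Agent.Helper85_Leo
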