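import Pool.Agent.Helper85_Leo.LogP
import Pool.Agent.Helper85_Leo.Strassman

/-!
# The core non-vanishing statement
-/

set_option autoImplicit false
set_option linter.unusedSectionVars false

open Filter Topology Polynomial

namespace Pool.Agent.Helper85_Leo

theorem eq_zero_of_power_sums {F : Type*} [Field F] {J : Type*} [Fintype J] (β d : J → F)
    (hβ : Function.Injective β) (h : ∀ k : ℕ, ∑ j, d j * β j ^ k = 0) (j₀ : J) : d j₀ = 0 := by
  classical
  set L : F[X] := ∏ j ∈ Finset.univ.erase j₀, (X - C (β j)) with hL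
  have h1 : ∑ j, d j * L.eval (β j) = 0 := by
    have h2 : ∀ j, d j * L.eval (β j) =
        ∑ k ∈ Finset.range (L.natDegree + 1), L.coeff k * (d j * β j ^ k) := by
      intro j
      rw [Polynomial.eval_eq_sum_range, Finset.mul_sum]
      exact Finset.sum_congr rfl fun k _ => by ring
    simp only [h2]
    rw [Finset.sum_comm]
    refine Finset.sum_eq_zero fun k _ => ?_
    rw [← Finset.mul_sum, h k, mul_zero]
  rw [Finset.sum_eq_single j₀] at h1
  · rcases mul_eq_zero.1 h1 with h2 | h2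
    · exact h2
    · exfalso
      rw [hL, Polynomial.eval_prod, Finset.prod_eq_zero_iff] at h2
      obtain ⟨j, hj, h3⟩ := h2
      rw [Polynomial.eval_sub, Polynomial.eval_X, Polynomial.eval_C, sub_eq_zero] at h3
      exact (Finset.ne_of_mem_erase hj) (hβ h3.symm)
  · intro j _ hj
    rw [hL, Polynomial.eval_prod]
    rw [Finset.prod_eq_zero (Finset.mem_erase.2 ⟨hj, Finset.mem_univ _⟩), mul_zero]
    simp
  · intro h2
    exact absurd (Finset.mem_univ _) h2

variable (p : ℕ) [hp : Fact p.Prime] {F : Type*} [NormedField F] [NormedAlgebra ℚ_[p] F]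
  [IsUltrametricDist F] [CompleteSpace F]

/-- All power sums are bounded by the first ones. -/
theorem power_sum_bound {J : Type*} [Fintype J] (β d : J → F) (hβ : Function.Injective β)
    (hβ1 : ∀ j, ‖β j‖ ≤ 1) {C₀ : ℝ} (hC : 0 ≤ C₀)
    (h : ∀ k : ℕ, k < Fintype.card J → ‖∑ j, d j * β j ^ k‖ ≤ C₀) (k : ℕ) :
    ‖∑ j, d j * β j ^ k‖ ≤ C₀ := by
  classical
  rcases isEmpty_or_nonempty J with hJ | hJ
  · simpa using hC
  set Z : Finset F := Finset.univ.image β with hZ
  have hZc : Z.card = Fintype.card J := by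
    rw [hZ, Finset.card_image_of_injective _ hβ, Finset.card_univ]
  set W : F[X] := ∏ z ∈ Z, (X - C z) with hW
  have hWm : W.Monic := monic_prod_of_monic _ _ fun z _ => monic_X_sub_C _
  have hWd : W.natDegree = Fintype.card J := by
    rw [hW, natDegree_prod_of_monic _ _ fun z _ => monic_X_sub_C _]
    simp [hZc]
  have hcard : 0 < Fintype.card J := Fintype.card_pos
  have hW1 : W ≠ 1 := by
    intro h
    rw [h] at hWd
    simp at hWd
    omega
  have heval : ∀ j, β j ^ k =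
      ∑ i ∈ Finset.range (Fintype.card J), ((X ^ k : F[X]) %ₘ W).coeff i * β j ^ i := by
    intro j
    have h1 : W.eval (β j) = 0 := by
      rw [hW, Polynomial.eval_prod]
      exact Finset.prod_eq_zero (Finset.mem_image_of_mem _ (Finset.mem_univ j)) (by simp)
    have h2 : ((X ^ k : F[X]) %ₘ W).eval (β j) = β j ^ k := by
      have h3 := congrArg (Polynomial.eval (β j)) (Polynomial.modByMonic_add_div (X ^ k : F[X]) W)
      rw [Polynomial.eval_add, Polynomial.eval_mul, h1, zero_mul, add_zero] at h3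
      simpa using h3
    rw [← h2]
    exact Polynomial.eval_eq_sum_range' (by
      have := Polynomial.natDegree_modByMonic_lt (X ^ k : F[X]) hWm hW1
      omega) _
  have h1 : ∑ j, d j * β j ^ k = ∑ i ∈ Finset.range (Fintype.card J),
      ((X ^ k : F[X]) %ₘ W).coeff i * ∑ j, d j * β j ^ i := by
    calc ∑ j, d j * β j ^ k = ∑ j, ∑ i ∈ Finset.range (Fintype.card J),
        ((X ^ k : F[X]) %ₘ W).coeff i * (d j * β j ^ i) := by
          refine Finset.sum_congr rfl fun j _ => ?_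
          rw [heval j, Finset.mul_sum]
          exact Finset.sum_congr rfl fun i _ => by ring
      _ = _ := by
          rw [Finset.sum_comm]
          refine Finset.sum_congr rfl fun i _ => ?_
          rw [Finset.mul_sum]
  rw [h1]
  refine IsUltrametricDist.norm_sum_le_of_forall_le_of_nonneg hC fun i hi => ?_
  rw [norm_mul]
  have h2 := norm_coeff_modByMonic_le Z (fun z hz => by
    obtain ⟨j, _, rfl⟩ := Finset.mem_image.1 hz
    exact hβ1 j) k i
  calc _ ≤ 1 * C₀ := mul_le_mul h2 (h i (Finset.mem_range.1 hi)) (norm_nonneg _) zero_le_one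
    _ = C₀ := one_mul _

include p in
/-- **Core lemma.** -/
theorem core {J : Type*} [Fintype J] (β d : J → F) (hβ : Function.Injective β)
    (hβ1 : ∀ j, ‖β j‖ ≤ 1) (M : F) (hM0 : M ≠ 0) (hM1 : ‖M‖ ≤ 1 / 2)
    (hM2 : ((Fintype.card J : ℝ) + 1) * ‖M‖ ^ 2 < 1)
    (hd : ∑ j, d j = 0) (Z : Finset F) (hZc : Z.card = Fintype.card J)
    (hZ0 : ∀ w ∈ Z, w ≠ 0) (hZ1 : ∀ w ∈ Z, ‖w‖ ≤ 1)
    (hlog : ∀ w ∈ Z, ∑ j, d j * ∑' k : ℕ, (M * β j * w) ^ (k + 1) / ((k + 1 : ℕ) : F) = 0) :
    ∀ j, d j = 0 := by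
  classical
  set n := Fintype.card J with hn
  rcases isEmpty_or_nonempty J with hJ | hJ
  · exact fun j => (hJ.false j).elim
  have hnpos : 0 < n := Fintype.card_pos
  set T : ℕ → F := fun k => ∑ j, d j * β j ^ k with hT
  have hT0 : T 0 = 0 := by simp [hT, hd]
  obtain ⟨i₀, hi₀, hmax⟩ := Finset.exists_max_image (Finset.range n) (fun i => ‖T i‖)
    ⟨0, Finset.mem_range.2 hnpos⟩
  set τ := ‖T i₀‖ with hτ
  have hTk : ∀ k, ‖T k‖ ≤ τ := fun k =>
    power_sum_bound β d hβ hβ1 (norm_nonneg _) (fun k hk => hmax k (Finset.mem_range.2 hk)) k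
  by_cases hτ0 : τ = 0
  · intro j
    refine eq_zero_of_power_sums β d hβ (fun k => ?_) j
    have := hTk k
    rw [hτ0] at this
    exact norm_le_zero_iff.1 this
  exfalso
  have hτpos : 0 < τ := lt_of_le_of_ne (norm_nonneg _) (Ne.symm hτ0)
  have hMpos : 0 < ‖M‖ := norm_pos_iff.2 hM0
  have hM1' : ‖M‖ < 1 := lt_of_le_of_lt hM1 (by norm_num)
  have hi₀n : i₀ < n := Finset.mem_range.1 hi₀
  have hi₀1 : 1 ≤ i₀ := by
    rcases Nat.eq_zero_or_pos i₀ with h | h
    · exfalso
      apply hτ0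
      rw [hτ, h, hT0, norm_zero]
    · exact h
  set a : ℕ → F := fun k => M ^ k * T k / (k : F) with ha
  have hak : ∀ k, ‖a k‖ ≤ (k : ℝ) * ‖M‖ ^ k * τ := by
    intro k
    rcases Nat.eq_zero_or_pos k with hk | hk
    · subst hk; simp [ha]
    · simp only [ha, norm_div, norm_mul, norm_pow]
      rw [div_eq_mul_inv]
      have h1 := norm_natCast_inv_le (F := F) p k (by omega)
      calc ‖M‖ ^ k * ‖T k‖ * ‖(k : F)‖⁻¹ ≤ ‖M‖ ^ k * τ * (k : ℝ) := by
            refine mul_le_mul ?_ h1 (by positivity) (by positivity)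
            exact mul_le_mul_of_nonneg_left (hTk k) (by positivity)
        _ = _ := by ring
  have hsumm : Summable fun k => ‖a k‖ := by
    refine Summable.of_nonneg_of_le (fun k => norm_nonneg _) hak ?_
    have h := summable_pow_mul_geometric_of_norm_lt_one (R := ℝ) 1 (r := ‖M‖)
      (by rw [Real.norm_of_nonneg (norm_nonneg _)]; exact hM1')
    simpa using h.mul_right τ
  have hzero : ∀ w ∈ insert 0 Z, ∑' k, a k * w ^ k = 0 := by
    intro w hw
    rcases Finset.mem_insert.1 hw with rfl | hw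
    · rw [tsum_eq_single 0]
      · simp [ha]
      · intro k hk
        simp [hk]
    · have h1 := hlog w hw
      have h2 : ∀ j, Summable fun k : ℕ => (M * β j * w) ^ (k + 1) / ((k + 1 : ℕ) : F) := by
        intro j
        have hnorm : ‖M * β j * w‖ ≤ ‖M‖ := by
          rw [norm_mul, norm_mul]
          calc ‖M‖ * ‖β j‖ * ‖w‖ ≤ ‖M‖ * 1 * 1 := by
                gcongr
                · exact hβ1 j
                · exact hZ1 w hw
            _ = ‖M‖ := by ring
        refine Summable.of_norm_bounded (summable_real_bound (norm_nonneg _) hM1') fun k => ?_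
        rw [norm_div, norm_pow, div_eq_mul_inv, mul_comm]
        refine mul_le_mul (norm_natCast_inv_le p _ (Nat.succ_ne_zero k)) ?_ (by positivity)
          (by positivity)
        exact pow_le_pow_left₀ (norm_nonneg _) hnorm _
      have h3 : ∑ j, d j * ∑' k : ℕ, (M * β j * w) ^ (k + 1) / ((k + 1 : ℕ) : F) =
          ∑' k : ℕ, a (k + 1) * w ^ (k + 1) := by
        have h4 : ∀ j, d j * ∑' k : ℕ, (M * β j * w) ^ (k + 1) / ((k + 1 : ℕ) : F) =
            ∑' k : ℕ, d j * ((M * β j * w) ^ (k + 1) / ((k + 1 : ℕ) : F)) := fun j =>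
          tsum_mul_left.symm
        simp only [h4]
        rw [← Summable.tsum_finsetSum]
        · refine tsum_congr fun k => ?_
          simp only [ha, hT]
          rw [Finset.mul_sum, Finset.sum_div, Finset.sum_mul]
          refine Finset.sum_congr rfl fun j _ => ?_
          rw [mul_pow, mul_pow]
          ring
        · intro j _
          exact (h2 j).mul_left _
      rw [h3] at h1
      have hs : Summable fun k => a k * w ^ k := by
        refine Summable.of_norm_bounded hsumm fun k => ?_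
        rw [norm_mul, norm_pow]
        exact mul_le_of_le_one_right (norm_nonneg _) (pow_le_one₀ (norm_nonneg _) (hZ1 w hw))
      rw [hs.tsum_eq_zero_add, h1]
      simp [ha]
  have hcard : (insert 0 Z).card = n + 1 := by
    rw [Finset.card_insert_of_notMem, hZc]
    intro h
    exact hZ0 0 h rfl
  set lam : ℝ := ((n : ℝ) + 1) * ‖M‖ ^ 2 with hlam
  have hbound : ∀ k, (insert 0 Z).card ≤ k → ‖a k‖ ≤ lam * ‖M‖ ^ i₀ * τ := by
    intro k hk
    rw [hcard] at hk
    refine (hak k).trans ?_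
    refine mul_le_mul_of_nonneg_right ?_ hτpos.le
    obtain ⟨t, rfl⟩ := Nat.exists_eq_add_of_le hk
    obtain ⟨e, he⟩ : ∃ e, n + 1 + t = t + (2 + (i₀ + e)) := ⟨n - 1 - i₀, by omega⟩
    have h1 : ‖M‖ ^ (n + 1 + t) = ‖M‖ ^ t * (‖M‖ ^ 2 * (‖M‖ ^ i₀ * ‖M‖ ^ e)) := by
      rw [he, pow_add, pow_add, pow_add]
    have h2 : ((n + 1 + t : ℕ) : ℝ) * ‖M‖ ^ t ≤ (n : ℝ) + 1 := by
      have h3 := real_est t
      have h4 : ‖M‖ ^ t ≤ (1 / 2) ^ t := pow_le_pow_left₀ (norm_nonneg _) hM1 t
      have h5 : ((n + 1 + t : ℕ) : ℝ) ≤ ((n : ℝ) + 1) * ((t + 1 : ℕ) : ℝ) := by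
        push_cast
        nlinarith [(by positivity : (0 : ℝ) ≤ (n : ℝ) * t)]
      calc ((n + 1 + t : ℕ) : ℝ) * ‖M‖ ^ t ≤ (((n : ℝ) + 1) * ((t + 1 : ℕ) : ℝ)) * (1 / 2) ^ t :=
            mul_le_mul h5 h4 (by positivity) (by positivity)
        _ = ((n : ℝ) + 1) * (((t + 1 : ℕ) : ℝ) * (1 / 2) ^ t) := by ring
        _ ≤ ((n : ℝ) + 1) * 1 := mul_le_mul_of_nonneg_left h3 (by positivity)
        _ = _ := mul_one _
    have h6 : ‖M‖ ^ e ≤ 1 := pow_le_one₀ (norm_nonneg _) hM1'.le
    calc ((n + 1 + t : ℕ) : ℝ) * ‖M‖ ^ (n + 1 + t)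
        = (((n + 1 + t : ℕ) : ℝ) * ‖M‖ ^ t) * (‖M‖ ^ 2 * ‖M‖ ^ i₀) * ‖M‖ ^ e := by rw [h1]; ring
      _ ≤ ((n : ℝ) + 1) * (‖M‖ ^ 2 * ‖M‖ ^ i₀) * 1 := by
          refine mul_le_mul ?_ h6 (by positivity) (by positivity)
          exact mul_le_mul_of_nonneg_right h2 (by positivity)
      _ = lam * ‖M‖ ^ i₀ := by rw [hlam]; ring
  have hfin := strassman (insert 0 Z) (fun z hz => by
      rcases Finset.mem_insert.1 hz with rfl | hz
      · simp
      · exact hZ1 z hz) a hsumm hzero (C₀ := lam * ‖M‖ ^ i₀ * τ) (by positivity) hbound i₀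
  have hlow : ‖M‖ ^ i₀ * τ ≤ ‖a i₀‖ := by
    simp only [ha, norm_div, norm_mul, norm_pow]
    rw [le_div_iff₀]
    · exact mul_le_of_le_one_right (by positivity) (norm_natCast_le_one p _)
    · rw [norm_pos_iff]
      have := charZero_of_padic p F
      exact_mod_cast (by omega : i₀ ≠ 0)
  have h1 : ‖M‖ ^ i₀ * τ ≤ lam * (‖M‖ ^ i₀ * τ) := by
    refine hlow.trans (hfin.trans (le_of_eq (by ring)))
  have h2 : 0 < ‖M‖ ^ i₀ * τ := by positivity
  have h3 : lam * (‖M‖ ^ i₀ * τ) < 1 * (‖M‖ ^ i₀ * τ) := mul_lt_mul_of_pos_right hM2 h2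
  rw [one_mul] at h3
  exact absurd h1 (not_le.2 h3)

end Pool.Agent.Helper85_Leo
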