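import Pool.Agent.Helper85_Leo.Core
import Pool.Agent.Helper85_Leo.Units

/-!
# Leopoldt's conjecture for fields with units coming from a polynomial identity
-/

set_option autoImplicit false
set_option linter.unusedSectionVars false

open Filter Topology NumberField Polynomial

namespace Pool.Agent.Helper85_Leo

section local_part

variable (p : ℕ) [hp : Fact p.Prime] {F : Type*} [NormedField F] [NormedAlgebra ℚ_[p] F]
  [IsUltrametricDist F] [CompleteSpace F]

/-- The values of the logarithms of the linear factors. -/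
theorem hasLog_factor {J : Type*} [Fintype J] (γ : J → F) (hγ : ∀ j, ‖γ j‖ ≤ 1) (M : F)
    (hM : ‖M‖ < 1) (x : F) (hx : ‖x‖ = 1) (hprod : (∏ j, (x - M * γ j)) ^ 2 = 1) (j : J) :
    HasLog p ((x - M * γ j) ^ (2 * Fintype.card J))
      (2 * ∑ l, ∑' k : ℕ, (M * γ l * x⁻¹) ^ (k + 1) / ((k + 1 : ℕ) : F) -
        (2 * Fintype.card J : ℕ) * ∑' k : ℕ, (M * γ j * x⁻¹) ^ (k + 1) / ((k + 1 : ℕ) : F)) := by
  classical
  set n := Fintype.card J with hn
  have hx0 : x ≠ 0 := by
    intro h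
    rw [h, norm_zero] at hx
    exact zero_ne_one hx
  set y : J → F := fun j => M * γ j * x⁻¹ with hy
  have hy1 : ∀ j, ‖y j‖ < 1 := by
    intro j
    simp only [hy, norm_mul, norm_inv, hx, inv_one, mul_one]
    calc ‖M‖ * ‖γ j‖ ≤ ‖M‖ * 1 := mul_le_mul_of_nonneg_left (hγ j) (norm_nonneg _)
      _ < 1 := by rw [mul_one]; exact hM
  have hfac : ∀ j, x - M * γ j = x * (1 - y j) := by
    intro j
    simp only [hy]
    field_simp
  set S : J → F := fun j => ∑' k : ℕ, y j ^ (k + 1) / ((k + 1 : ℕ) : F) with hS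
  have hlog : ∀ j, HasLog p (1 - y j) (-S j) := fun j => hasLog_one_sub (hy1 j)
  have hprod2 : x ^ (2 * n) * (∏ l, (1 - y l)) ^ 2 = 1 := by
    have h1 : ∏ j, (x - M * γ j) = x ^ n * ∏ l, (1 - y l) := by
      simp only [hfac]
      rw [Finset.prod_mul_distrib, Finset.prod_const, Finset.card_univ]
    rw [h1, mul_pow, ← pow_mul, mul_comm n 2] at hprod
    exact hprod
  have hlogx : HasLog p (x ^ (2 * n)) (2 * ∑ l, S l) := by
    have h1 := (hasLog_prod Finset.univ (fun l => 1 - y l) (fun l => -S l)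
      fun l _ => hlog l).pow 2
    have h2 := h1.inv
    rw [← eq_inv_of_mul_eq_one_left hprod2] at h2
    convert h2 using 1
    rw [Finset.sum_neg_distrib]
    push_cast
    ring
  have h3 := hlogx.mul ((hlog j).pow (2 * n))
  rw [← mul_pow, ← hfac j] at h3
  convert h3 using 1
  ring

variable {K : Type} [Field K] [NumberField K] [CharZero F] [IsAlgClosed F]

include p in
/-- Abstract form of the criterion. -/
theorem leopoldtAt_of_blocks {ι : Type} [Fintype ι] (R : ι → Type) [∀ i, Fintype (R i)]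
    [∀ i, Nonempty (R i)] (θ : K) (hθ : IsIntegral ℤ θ)
    (hinj : Function.Injective fun σ : K →+* F => σ θ)
    (hdeg : Module.finrank ℚ K = Fintype.card (Σ i, R i))
    (η : ι → (𝓞 K)ˣ) (a : ℤ) (M : F) (hM0 : M ≠ 0) (hM1 : ‖M‖ ≤ 1 / 2)
    (hM2 : ((Module.finrank ℚ K : ℝ) + 1) * ‖M‖ ^ 2 < 1)
    (γ : (Σ i, R i) → F) (hγinj : Function.Injective γ) (hγ : ∀ j, ‖γ j‖ ≤ 1)
    (hη : ∀ (σ : K →+* F) i, unitVal σ (η i) = ∏ z : R i, (σ θ - a - M * γ ⟨i, z⟩))
    (hprod : ∀ σ : K →+* F, (∏ j, (σ θ - a - M * γ j)) ^ 2 = 1)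
    (hrank : Units.rank K + 1 ≤ Fintype.card ι) : LeopoldtAt K p := by
  classical
  set n := Fintype.card (Σ i, R i) with hn
  have hne : Nonempty ι := Fintype.card_pos_iff.1 (by omega)
  obtain ⟨i₀⟩ := hne
  obtain ⟨r₀⟩ := (inferInstance : Nonempty (R i₀))
  have hnpos : 0 < n := Fintype.card_pos_iff.2 ⟨⟨i₀, r₀⟩⟩
  have hM1' : ‖M‖ < 1 := lt_of_le_of_lt hM1 (by norm_num)
  -- `σ θ - a` has norm `1`
  have hx1 : ∀ σ : K →+* F, ‖σ θ - a‖ = 1 := by
    intro σ
    have hle : ‖σ θ - a‖ ≤ 1 := by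
      refine norm_le_one_of_isIntegral ?_
      refine IsIntegral.sub (hθ.map σ.toIntAlgHom) ?_
      have : IsIntegral ℤ (algebraMap ℤ F a) := isIntegral_algebraMap
      simpa using this
    refine le_antisymm hle ?_
    by_contra hlt
    push Not at hlt
    have h1 : ∀ j, ‖σ θ - a - M * γ j‖ ≤ max ‖σ θ - a‖ ‖M‖ := by
      intro j
      rw [sub_eq_add_neg]
      refine (IsUltrametricDist.norm_add_le_max _ _).trans ?_
      refine max_le_max le_rfl ?_
      rw [norm_neg, norm_mul]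
      exact mul_le_of_le_one_right (norm_nonneg _) (hγ j)
    have h2 : max ‖σ θ - a‖ ‖M‖ < 1 := max_lt hlt hM1'
    have h3 : ‖∏ j, (σ θ - a - M * γ j)‖ < 1 := by
      rw [norm_prod]
      calc ∏ j, ‖σ θ - a - M * γ j‖ ≤ ∏ _j : (Σ i, R i), max ‖σ θ - a‖ ‖M‖ :=
            Finset.prod_le_prod (fun j _ => norm_nonneg _) fun j _ => h1 j
        _ = max ‖σ θ - a‖ ‖M‖ ^ n := by rw [Finset.prod_const, Finset.card_univ]
        _ < 1 := pow_lt_one₀ (le_max_of_le_right (norm_nonneg _)) h2 hnpos.ne'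
    have h4 : ‖(∏ j, (σ θ - a - M * γ j)) ^ 2‖ = 1 := by rw [hprod σ, norm_one]
    rw [norm_pow] at h4
    have h5 : ‖∏ j, (σ θ - a - M * γ j)‖ ^ 2 < 1 := pow_lt_one₀ (norm_nonneg _) h3 (by norm_num)
    linarith
  set S : (K →+* F) → (Σ i, R i) → F := fun σ j =>
    ∑' k : ℕ, (M * γ j * (σ θ - a)⁻¹) ^ (k + 1) / ((k + 1 : ℕ) : F) with hS
  set L : (K →+* F) → ι → F := fun σ i =>
    ∑ z : R i, (2 * ∑ l, S σ l - (2 * n : ℕ) * S σ ⟨i, z⟩) with hL
  refine leopoldtAt_of_logs p η (2 * n) L ?_ ?_ hrank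
  · intro σ i
    rw [hη σ i, ← Finset.prod_pow]
    exact hasLog_prod _ _ _ fun z _ =>
      hasLog_factor p γ hγ M hM1' (σ θ - a) (hx1 σ) (hprod σ) ⟨i, z⟩
  · intro c hc
    set D : F := ∑ j : (Σ i, R i), c j.1 with hD
    set d : (Σ i, R i) → F := fun j => 2 * D - 2 * n * c j.1 with hd
    have hsum : ∀ σ, ∑ j, d j * S σ j = 0 := by
      intro σ
      rw [← hc σ]
      have h1 : ∑ i, c i * L σ i = ∑ j : (Σ i, R i), c j.1 * (2 * ∑ l, S σ l - (2 * n : ℕ) * S σ j) := by
        rw [Fintype.sum_sigma]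
        refine Finset.sum_congr rfl fun i _ => ?_
        rw [hL, Finset.mul_sum]
      rw [h1]
      have h2 : ∑ j : (Σ i, R i), c j.1 * (2 * ∑ l, S σ l - (2 * n : ℕ) * S σ j) =
          D * (2 * ∑ l, S σ l) - ∑ j : (Σ i, R i), 2 * n * c j.1 * S σ j := by
        rw [hD, Finset.sum_mul, ← Finset.sum_sub_distrib]
        refine Finset.sum_congr rfl fun j _ => ?_
        push_cast
        ring
      rw [h2]
      have h3 : D * (2 * ∑ l, S σ l) = ∑ l, 2 * D * S σ l := by
        rw [← Finset.mul_sum]; ring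
      rw [h3, ← Finset.sum_sub_distrib]
      refine Finset.sum_congr rfl fun j _ => ?_
      simp only [hd]
      ring
    have hdsum : ∑ j, d j = 0 := by
      simp only [hd]
      rw [Finset.sum_sub_distrib, Finset.sum_const, Finset.card_univ, nsmul_eq_mul,
        ← Finset.mul_sum, ← hD, ← hn]
      ring
    set Z : Finset F := Finset.univ.image fun σ : K →+* F => (σ θ - a)⁻¹ with hZ
    have hZc : Z.card = Fintype.card (Σ i, R i) := by
      rw [hZ, Finset.card_image_of_injective, Finset.card_univ, NumberField.Embeddings.card, hdeg]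
      intro σ τ h
      apply hinj
      have h1 := inv_injective h
      simpa using h1
    have hcore := core p γ d hγinj hγ M hM0 hM1 (by rw [← hn, ← hdeg]; exact hM2) hdsum Z hZc
      (fun w hw => by
        obtain ⟨σ, _, rfl⟩ := Finset.mem_image.1 hw
        refine inv_ne_zero ?_
        intro h
        have := hx1 σ
        rw [h, norm_zero] at this
        exact zero_ne_one this)
      (fun w hw => by
        obtain ⟨σ, _, rfl⟩ := Finset.mem_image.1 hw
        rw [norm_inv, hx1 σ, inv_one])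
      (fun w hw => by
        obtain ⟨σ, _, rfl⟩ := Finset.mem_image.1 hw
        exact hsum σ)
    have hn0 : (n : F) ≠ 0 := by exact_mod_cast hnpos.ne'
    have hci : ∀ i, n * c i = D := by
      intro i
      obtain ⟨r⟩ := (inferInstance : Nonempty (R i))
      have h1 := hcore ⟨i, r⟩
      simp only [hd] at h1
      have h2 : (2 : F) ≠ 0 := two_ne_zero
      have h3 : (2 : F) * (D - n * c i) = 0 := by rw [← h1]; ring
      rcases mul_eq_zero.1 h3 with h4 | h4
      · exact absurd h4 h2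
      · exact (sub_eq_zero.1 h4).symm
    intro i j
    have := (hci i).trans (hci j).symm
    exact mul_left_cancel₀ hn0 this

end local_part

end Pool.Agent.Helper85_Leo
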