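import Pool.Agent.Helper85_Leo.Family

/-!
# Irreducibility of `famPoly r₁ r₂ M - 1` (Schur's argument)
-/

set_option autoImplicit false
set_option linter.unusedSectionVars false

open Filter Topology Polynomial

namespace Pool.Agent.Helper85_Leo

theorem aeval_mul_I (N : ℤ) (u : ℤ[X]) :
    ∃ x y : ℤ, aeval ((N : ℂ) * Complex.I) u = x + y * (N * Complex.I) := by
  induction u using Polynomial.induction_on with
  | C a => exact ⟨a, 0, by simp⟩
  | add p q hp hq =>
    obtain ⟨x, y, h⟩ := hp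
    obtain ⟨x', y', h'⟩ := hq
    refine ⟨x + x', y + y', ?_⟩
    rw [map_add, h, h']
    push_cast
    ring
  | monomial n a h =>
    obtain ⟨x, y, h⟩ := h
    refine ⟨-(y * N ^ 2), x, ?_⟩
    have h1 : (C a * X ^ (n + 1) : ℤ[X]) = (C a * X ^ n) * X := by ring
    rw [h1, map_mul, h, aeval_X]
    push_cast
    have : ((x : ℂ) + y * (N * Complex.I)) * (N * Complex.I) =
        x * (N * Complex.I) + y * N ^ 2 * Complex.I ^ 2 := by ring
    rw [this, Complex.I_sq]
    ring

theorem aeval_unit_of_mul_eq (N : ℤ) (hN : 2 ≤ |N|) (u v : ℤ[X])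
    (h : aeval ((N : ℂ) * Complex.I) u * aeval ((N : ℂ) * Complex.I) v = -1) :
    aeval ((N : ℂ) * Complex.I) u + aeval ((N : ℂ) * Complex.I) v = 0 := by
  obtain ⟨x, y, hu⟩ := aeval_mul_I N u
  obtain ⟨x', y', hv⟩ := aeval_mul_I N v
  have hsq : ∀ a b : ℤ, Complex.normSq ((a : ℂ) + b * (N * Complex.I)) = ((a ^ 2 + (b * N) ^ 2 : ℤ) : ℝ) := by
    intro a b
    rw [Complex.normSq_apply]
    simp
    ring
  have h1 := congrArg Complex.normSq h
  rw [map_mul, hu, hv, hsq, hsq, Complex.normSq_neg, map_one] at h1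
  have h2 : (x ^ 2 + (y * N) ^ 2) * (x' ^ 2 + (y' * N) ^ 2) = 1 := by exact_mod_cast h1
  have h3 : x ^ 2 + (y * N) ^ 2 = 1 := by
    have h4 := Int.eq_one_or_neg_one_of_mul_eq_one h2
    rcases h4 with h4 | h4
    · exact h4
    · nlinarith [sq_nonneg x, sq_nonneg (y * N)]
  have hN2 : 4 ≤ N ^ 2 := by
    rw [← sq_abs]; nlinarith
  have hy : y = 0 := by
    by_contra hy
    have h5 : 1 ≤ y ^ 2 := by
      have := sq_pos_of_ne_zero hy
      omega
    nlinarith [sq_nonneg x, mul_pow y N 2]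
  have hx : x ^ 2 = 1 := by rw [hy] at h3; simpa using h3
  have hx' : x = 1 ∨ x = -1 := by
    have h5 : (x - 1) * (x + 1) = 0 := by linear_combination hx
    rcases mul_eq_zero.1 h5 with h6 | h6
    · left; omega
    · right; omega
  rw [hu, hv] at h
  rw [hu, hv, hy]
  rw [hy] at h
  rcases hx' with rfl | rfl
  · push_cast at h ⊢
    linear_combination h
  · push_cast at h ⊢
    linear_combination -h

theorem irreducible_fam (r₁ r₂ : ℕ) (M : ℤ) (hM : 2 ≤ M) (hn : 0 < r₁ + 2 * r₂) :
    Irreducible (famPoly r₁ r₂ M - 1) := by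
  have hmon : (famPoly r₁ r₂ M - 1).Monic := by
    refine (famPoly_monic r₁ r₂ M).sub_of_left ?_
    rw [degree_one, degree_eq_natDegree (famPoly_monic r₁ r₂ M).ne_zero, famPoly_natDegree]
    exact_mod_cast hn
  have hdeg : (famPoly r₁ r₂ M - 1).natDegree = r₁ + 2 * r₂ := by
    rw [← famPoly_natDegree r₁ r₂ M]
    exact natDegree_sub_eq_left_of_natDegree_lt (by rw [natDegree_one, famPoly_natDegree]; exact hn)
  rw [hmon.irreducible_iff_natDegree]
  constructor
  · intro h
    rw [h, natDegree_one] at hdeg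
    omega
  intro u v hu hv huv
  by_contra hcon
  push Not at hcon
  obtain ⟨hu0, hv0⟩ := hcon
  have hsum : u.natDegree + v.natDegree = r₁ + 2 * r₂ := by
    rw [← hu.natDegree_mul hv, huv, hdeg]
  have hval : ∀ β : RootIdx r₁ r₂, aeval ((M : ℂ) * bval r₁ r₂ β) u *
      aeval ((M : ℂ) * bval r₁ r₂ β) v = -1 := by
    intro β
    rw [← map_mul, huv, map_sub, map_one, aeval_famPoly]
    rw [Finset.prod_eq_zero (Finset.mem_univ β) (sub_self _)]
    ring
  have hzero : ∀ β : RootIdx r₁ r₂, aeval ((M : ℂ) * bval r₁ r₂ β) (u + v) = 0 := by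
    intro β
    rw [map_add]
    have h := hval β
    rcases β with i | ⟨j, b⟩
    · have hc : (M : ℂ) * bval r₁ r₂ (Sum.inl i) = ((M * (i : ℕ) : ℤ) : ℂ) := by
        simp [bval]
      rw [hc] at h ⊢
      have hev : ∀ q : ℤ[X], aeval (((M * (i : ℕ) : ℤ)) : ℂ) q = ((q.eval (M * (i : ℕ)) : ℤ) : ℂ) := by
        intro q
        have := aeval_algebraMap_apply ℂ (M * (i : ℕ) : ℤ) q
        simpa using this
      rw [hev, hev] at h ⊢
      have h2 : u.eval (M * (i : ℕ)) * v.eval (M * (i : ℕ)) = -1 := by exact_mod_cast h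
      have h3 : u.eval (M * (i : ℕ)) + v.eval (M * (i : ℕ)) = 0 := by
        have h4 : u.eval (M * (i : ℕ)) * (-v.eval (M * (i : ℕ))) = 1 := by linarith
        have h5 := Int.eq_one_or_neg_one_of_mul_eq_one' h4
        rcases h5 with ⟨h5, h6⟩ | ⟨h5, h6⟩ <;> omega
      exact_mod_cast h3
    · have hc : ∃ N : ℤ, 2 ≤ |N| ∧ (M : ℂ) * bval r₁ r₂ (Sum.inr (j, b)) = (N : ℂ) * Complex.I := by
        have habs : 2 ≤ M * ((j : ℕ) + 1) := by nlinarith [(Int.natCast_nonneg (j : ℕ))]
        cases b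
        · refine ⟨-(M * ((j : ℕ) + 1)), ?_, ?_⟩
          · rw [abs_neg]
            exact habs.trans (le_abs_self _)
          · simp only [bval]
            push_cast
            ring
        · refine ⟨M * ((j : ℕ) + 1), habs.trans (le_abs_self _), ?_⟩
          simp only [bval]
          push_cast
          ring
      obtain ⟨N, hN, hc⟩ := hc
      rw [hc] at h ⊢
      exact aeval_unit_of_mul_eq N hN u v h
  have hM0 : (M : ℂ) ≠ 0 := by
    have : M ≠ 0 := by omega
    exact_mod_cast this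
  have hsum0 : (u + v).map (Int.castRingHom ℂ) = 0 := by
    refine eq_zero_of_natDegree_lt_card_of_eval_eq_zero _
      (f := fun β : RootIdx r₁ r₂ => (M : ℂ) * bval r₁ r₂ β) ?_ ?_ ?_
    · intro β β' h
      exact bval_injective r₁ r₂ (mul_left_cancel₀ hM0 h)
    · intro β
      rw [eval_map]
      exact hzero β
    · rw [card_rootIdx]
      refine lt_of_le_of_lt (natDegree_map_le) ?_
      refine lt_of_le_of_lt (natDegree_add_le _ _) ?_
      rw [max_lt_iff]
      omega
  have hinj : Function.Injective (Polynomial.map (Int.castRingHom ℂ)) :=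
    map_injective _ (RingHom.injective_int _)
  have huv0 : u + v = 0 := hinj (by rw [hsum0, Polynomial.map_zero])
  have h1 : u = -v := eq_neg_of_add_eq_zero_left huv0
  have h2 := hu.leadingCoeff
  rw [h1, leadingCoeff_neg, hv.leadingCoeff] at h2
  norm_num at h2

end Pool.Agent.Helper85_Leo
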