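import Pool.Agent.Helper85_Leo.Poly
import Pool.Agent.Helper85_Leo.Signature
import Pool.Agent.Helper85_Leo.Irred

/-!
# Leopoldt's conjecture for the fields of the family
-/

set_option autoImplicit false
set_option linter.unusedSectionVars false

open Filter Topology Polynomial NumberField

namespace Pool.Agent.Helper85_Leo

theorem famPoly_squarefree (r₁ r₂ : ℕ) (M : ℤ) (hM : M ≠ 0) :
    Squarefree ((famPoly r₁ r₂ M).map (Int.castRingHom ℚ)) := by
  have h1 : ((famPoly r₁ r₂ M).map (Int.castRingHom ℂ)).Separable := by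
    rw [famPoly_map, separable_prod_X_sub_C_iff]
    intro β β' h
    have hM0 : (M : ℂ) ≠ 0 := by exact_mod_cast hM
    exact bval_injective r₁ r₂ (mul_left_cancel₀ hM0 h)
  have h2 : (famPoly r₁ r₂ M).map (Int.castRingHom ℂ) =
      ((famPoly r₁ r₂ M).map (Int.castRingHom ℚ)).map (algebraMap ℚ ℂ) := by
    rw [Polynomial.map_map]
    congr 1
  rw [h2, separable_map] at h1
  exact h1.squarefree

theorem fam_comp (r₁ r₂ : ℕ) (q M : ℤ) (i : Fin r₁ ⊕ Fin r₂) :
    (fam r₁ r₂ (q * M) i).comp (C q * X + C 0) =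
      C (q ^ (fam r₁ r₂ (q * M) i).natDegree) * fam r₁ r₂ M i := by
  rw [fam_natDegree]
  cases i with
  | inl i =>
    simp only [fam, Sum.elim_inl, C_0, add_zero, sub_comp, X_comp, C_comp, pow_one]
    simp only [C_mul]
    ring
  | inr j =>
    simp only [fam, Sum.elim_inr, C_0, add_zero, add_comp, pow_comp, X_comp, C_comp]
    simp only [C_mul, C_pow]
    ring

theorem famPoly_comp (r₁ r₂ : ℕ) (q M : ℤ) :
    (famPoly r₁ r₂ (q * M)).comp (C q * X + C 0) = C (q ^ (r₁ + 2 * r₂)) * famPoly r₁ r₂ M := by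
  have h1 : r₁ + 2 * r₂ = ∑ i, (fam r₁ r₂ (q * M) i).natDegree := by
    rw [← famPoly_natDegree r₁ r₂ (q * M), famPoly,
      natDegree_prod_of_monic _ _ fun i _ => fam_monic r₁ r₂ (q * M) i]
  rw [h1, famPoly, Polynomial.prod_comp, famPoly, ← Finset.prod_pow_eq_pow_sum, map_prod,
    ← Finset.prod_mul_distrib]
  exact Finset.prod_congr rfl fun i _ => fam_comp r₁ r₂ q M i

variable {K : Type} [Field K] [NumberField K] {r₁ r₂ : ℕ} {M : ℤ} {θ : K}

/-- Leopoldt's conjecture for the fields of the family, for all primes `p` such that a power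
`p ^ m` with `p ^ (2 m) > [K : ℚ] + 1` divides `M`. -/
theorem IsFam.leopoldtAt (h : IsFam r₁ r₂ M θ) (hM : 3 ≤ M) (p : ℕ) [Fact p.Prime] (m : ℕ)
    (hpM : (p : ℤ) ^ m ∣ M) (hpm : r₁ + 2 * r₂ + 1 < p ^ (2 * m)) : LeopoldtAt K p := by
  obtain ⟨M', rfl⟩ := hpM
  refine leopoldtAt_of_poly p (fam r₁ r₂ ((p : ℤ) ^ m * M')) (fam_monic r₁ r₂ _)
    (fam_natDegree_pos r₁ r₂ _) (famPoly_squarefree r₁ r₂ _ (by omega)) θ h.gen ?_ ?_ ?_ 0 m
    (famPoly r₁ r₂ M') ?_ ?_
  · rw [h.deg]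
    exact (famPoly_natDegree r₁ r₂ _).symm
  · have := h.root
    rw [famPoly] at this
    rw [this, one_pow]
  · rw [h.rank hM]
    simp
  · have := famPoly_comp r₁ r₂ ((p : ℤ) ^ m) M'
    rw [famPoly] at this
    rw [this, h.deg, ← pow_mul]
  · rw [h.deg]
    exact hpm

/-- Existence of the fields. -/
theorem exists_isFam (r₁ r₂ : ℕ) (M : ℤ) (hM : 2 ≤ M) (hn : 0 < r₁ + 2 * r₂) :
    ∃ (K : Type) (_ : Field K) (_ : NumberField K) (θ : K), IsFam r₁ r₂ M θ := by
  have hmon : (famPoly r₁ r₂ M - 1).Monic := by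
    refine (famPoly_monic r₁ r₂ M).sub_of_left ?_
    rw [degree_one, degree_eq_natDegree (famPoly_monic r₁ r₂ M).ne_zero, famPoly_natDegree]
    exact_mod_cast hn
  have hdeg : (famPoly r₁ r₂ M - 1).natDegree = r₁ + 2 * r₂ := by
    rw [← famPoly_natDegree r₁ r₂ M]
    exact natDegree_sub_eq_left_of_natDegree_lt (by rw [natDegree_one, famPoly_natDegree]; exact hn)
  have hirr := irreducible_fam r₁ r₂ M hM hn
  rw [hmon.irreducible_iff_irreducible_map_fraction_map (K := ℚ)] at hirr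
  set f : ℚ[X] := (famPoly r₁ r₂ M - 1).map (algebraMap ℤ ℚ) with hf
  have hfact : Fact (Irreducible f) := ⟨hirr⟩
  have hfm : f.Monic := hmon.map _
  have hfd : f.natDegree = r₁ + 2 * r₂ := by rw [hf, hmon.natDegree_map, hdeg]
  have hfin : Module.finrank ℚ (AdjoinRoot f) = r₁ + 2 * r₂ := by
    rw [(AdjoinRoot.powerBasis hfm.ne_zero).finrank, AdjoinRoot.powerBasis_dim, hfd]
  have hNF : NumberField (AdjoinRoot f) :=
    { to_charZero := charZero_of_injective_algebraMap (algebraMap ℚ (AdjoinRoot f)).injective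
      to_finiteDimensional := (AdjoinRoot.powerBasis hfm.ne_zero).finite }
  refine ⟨AdjoinRoot f, inferInstance, hNF, AdjoinRoot.root f, ?_, ?_, ?_⟩
  · convert IntermediateField.adjoin_root_eq_top f <;> exact Subsingleton.elim _ _
  · have h1 : aeval (AdjoinRoot.root f) (famPoly r₁ r₂ M - 1) = 0 := by
      have h2 : eval₂ (AdjoinRoot.of f) (AdjoinRoot.root f)
          ((famPoly r₁ r₂ M - 1).map (algebraMap ℤ ℚ)) = 0 := AdjoinRoot.eval₂_root f
      rw [eval₂_map] at h2
      have h3 : algebraMap ℤ (AdjoinRoot f) = (AdjoinRoot.of f).comp (algebraMap ℤ ℚ) :=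
        RingHom.ext_int _ _
      rw [aeval_def, h3]
      exact h2
    rw [map_sub, map_one, sub_eq_zero] at h1
    exact h1
  · convert hfin

end Pool.Agent.Helper85_Leo
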