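import Mathlib

/-!
# An explicit family of polynomials

`famPoly r₁ r₂ M = ∏_{i < r₁} (X - M i) * ∏_{j < r₂} (X² + M² (j+1)²)`.
-/

set_option autoImplicit false
set_option linter.unusedSectionVars false

open Filter Topology Polynomial

namespace Pool.Agent.Helper85_Leo

/-- The factors `X - M i` and `X² + M² (j+1)²`. -/
noncomputable def fam (r₁ r₂ : ℕ) (M : ℤ) : Fin r₁ ⊕ Fin r₂ → ℤ[X]
  | Sum.inl i => X - C (M * (i : ℕ))
  | Sum.inr j => X ^ 2 + C (M ^ 2 * ((j : ℕ) + 1) ^ 2)

/-- Their product. -/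
noncomputable def famPoly (r₁ r₂ : ℕ) (M : ℤ) : ℤ[X] := ∏ i, fam r₁ r₂ M i

/-- Index set of the complex roots. -/
abbrev RootIdx (r₁ r₂ : ℕ) : Type := Fin r₁ ⊕ (Fin r₂ × Bool)

/-- The complex roots for `M = 1`: Gaussian integers. -/
noncomputable def bval (r₁ r₂ : ℕ) : RootIdx r₁ r₂ → ℂ
  | Sum.inl i => ((i : ℕ) : ℂ)
  | Sum.inr (j, true) => (((j : ℕ) : ℂ) + 1) * Complex.I
  | Sum.inr (j, false) => -((((j : ℕ) : ℂ) + 1) * Complex.I)

variable (r₁ r₂ : ℕ) (M : ℤ)

theorem fam_monic (i : Fin r₁ ⊕ Fin r₂) : (fam r₁ r₂ M i).Monic := by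
  cases i with
  | inl i => exact monic_X_sub_C _
  | inr j => exact monic_X_pow_add_C _ two_ne_zero

theorem fam_natDegree (i : Fin r₁ ⊕ Fin r₂) :
    (fam r₁ r₂ M i).natDegree = Sum.elim (fun _ => 1) (fun _ => 2) i := by
  cases i with
  | inl i => exact natDegree_X_sub_C _
  | inr j => exact natDegree_X_pow_add_C

theorem fam_natDegree_pos (i : Fin r₁ ⊕ Fin r₂) : 0 < (fam r₁ r₂ M i).natDegree := by
  rw [fam_natDegree]
  cases i <;> simp

theorem famPoly_monic : (famPoly r₁ r₂ M).Monic :=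
  monic_prod_of_monic _ _ fun i _ => fam_monic r₁ r₂ M i

theorem famPoly_natDegree : (famPoly r₁ r₂ M).natDegree = r₁ + 2 * r₂ := by
  rw [famPoly, natDegree_prod_of_monic _ _ fun i _ => fam_monic r₁ r₂ M i]
  simp only [fam_natDegree]
  rw [Fintype.sum_sum_type]
  simp [mul_comm]

theorem card_rootIdx : Fintype.card (RootIdx r₁ r₂) = r₁ + 2 * r₂ := by
  simp [mul_comm]

/-- The complex factorisation. -/
theorem famPoly_map : (famPoly r₁ r₂ M).map (Int.castRingHom ℂ) =
    ∏ β, (X - C ((M : ℂ) * bval r₁ r₂ β)) := by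
  rw [famPoly, Polynomial.map_prod, Fintype.prod_sum_type, Fintype.prod_sum_type]
  congr 1
  · refine Finset.prod_congr rfl fun i _ => ?_
    simp [fam, bval]
  · rw [Fintype.prod_prod_type]
    refine Finset.prod_congr rfl fun j _ => ?_
    rw [Fintype.prod_bool]
    simp only [fam, bval]
    have h : (C ((M : ℂ) * ((((j : ℕ) : ℂ) + 1) * Complex.I))) ^ 2 =
        -C ((M : ℂ) ^ 2 * (((j : ℕ) : ℂ) + 1) ^ 2) := by
      rw [← C_pow, ← C_neg]
      congr 1
      rw [mul_pow, mul_pow, Complex.I_sq]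
      ring
    rw [mul_neg, C_neg]
    have h2 : (X - C ((M : ℂ) * ((((j : ℕ) : ℂ) + 1) * Complex.I))) *
        (X - -C ((M : ℂ) * ((((j : ℕ) : ℂ) + 1) * Complex.I))) =
        X ^ 2 - (C ((M : ℂ) * ((((j : ℕ) : ℂ) + 1) * Complex.I))) ^ 2 := by ring
    rw [h2, h]
    simp

theorem aeval_famPoly (z : ℂ) :
    aeval z (famPoly r₁ r₂ M) = ∏ β, (z - (M : ℂ) * bval r₁ r₂ β) := by
  have h1 : aeval z (famPoly r₁ r₂ M) = ((famPoly r₁ r₂ M).map (Int.castRingHom ℂ)).eval z := by
    rw [eval_map, aeval_def]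
    rfl
  rw [h1, famPoly_map, eval_prod]
  simp

/-- Real and imaginary parts of the `bval β` are integers. -/
theorem bval_gaussian (β : RootIdx r₁ r₂) :
    ∃ x y : ℤ, (bval r₁ r₂ β).re = x ∧ (bval r₁ r₂ β).im = y := by
  rcases β with i | ⟨j, b⟩
  · exact ⟨(i : ℕ), 0, by simp [bval], by simp [bval]⟩
  · cases b
    · exact ⟨0, -((j : ℕ) + 1), by simp [bval], by simp [bval]⟩
    · exact ⟨0, (j : ℕ) + 1, by simp [bval], by simp [bval]⟩

theorem bval_injective : Function.Injective (bval r₁ r₂) := by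
  intro β β' h
  have hre := congrArg Complex.re h
  have him := congrArg Complex.im h
  rcases β with i | ⟨j, b⟩ <;> rcases β' with i' | ⟨j', b'⟩
  · simp only [bval, Complex.natCast_re] at hre
    have : (i : ℕ) = (i' : ℕ) := by exact_mod_cast hre
    rw [Fin.ext this]
  · exfalso
    cases b'
    · simp only [bval, Complex.natCast_im] at him
      simp at him
      have : (0 : ℝ) ≤ (j' : ℕ) := by positivity
      linarith
    · simp only [bval, Complex.natCast_im] at him
      simp at him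
      have : (0 : ℝ) ≤ (j' : ℕ) := by positivity
      linarith
  · exfalso
    cases b
    · simp only [bval, Complex.natCast_im] at him
      simp at him
      have : (0 : ℝ) ≤ (j : ℕ) := by positivity
      linarith
    · simp only [bval, Complex.natCast_im] at him
      simp at him
      have : (0 : ℝ) ≤ (j : ℕ) := by positivity
      linarith
  · cases b <;> cases b'
    · simp [bval] at him
      have : (j : ℕ) = (j' : ℕ) := by
        exact_mod_cast him
      rw [Fin.ext this]
    · exfalso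
      simp [bval] at him
      have h1 : (0 : ℝ) ≤ (j' : ℕ) := by positivity
      have h2 : (0 : ℝ) ≤ (j : ℕ) := by positivity
      linarith
    · exfalso
      simp [bval] at him
      have h1 : (0 : ℝ) ≤ (j' : ℕ) := by positivity
      have h2 : (0 : ℝ) ≤ (j : ℕ) := by positivity
      linarith
    · simp [bval] at him
      have : (j : ℕ) = (j' : ℕ) := by
        exact_mod_cast him
      rw [Fin.ext this]

/-- Distinct `bval β` are at distance at least one. -/
theorem one_le_norm_bval_sub {β β' : RootIdx r₁ r₂} (h : β ≠ β') :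
    1 ≤ ‖bval r₁ r₂ β - bval r₁ r₂ β'‖ := by
  obtain ⟨x, y, hx, hy⟩ := bval_gaussian r₁ r₂ β
  obtain ⟨x', y', hx', hy'⟩ := bval_gaussian r₁ r₂ β'
  by_contra hlt
  push Not at hlt
  have h1 : |(bval r₁ r₂ β - bval r₁ r₂ β').re| < 1 := lt_of_le_of_lt (Complex.abs_re_le_norm _) hlt
  have h2 : |(bval r₁ r₂ β - bval r₁ r₂ β').im| < 1 := lt_of_le_of_lt (Complex.abs_im_le_norm _) hlt
  rw [Complex.sub_re, hx, hx'] at h1
  rw [Complex.sub_im, hy, hy'] at h2
  have h3 : |x - x'| < 1 := by exact_mod_cast h1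
  have h4 : |y - y'| < 1 := by exact_mod_cast h2
  have h5 : x = x' := by have := Int.abs_lt_one_iff.1 h3; omega
  have h6 : y = y' := by have := Int.abs_lt_one_iff.1 h4; omega
  apply h
  apply bval_injective
  apply Complex.ext
  · rw [hx, hx', h5]
  · rw [hy, hy', h6]

end Pool.Agent.Helper85_Leo
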