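import Pool.Agent.Helper85_Leo.Signature

/-!
# The family contains infinitely many non-isomorphic fields
-/

set_option autoImplicit false
set_option linter.unusedSectionVars false

open Filter Topology Polynomial NumberField

namespace Pool.Agent.Helper85_Leo

variable (r₁ r₂ : ℕ)

/-- `x ∈ L` is a root of `famPoly r₁ r₂ M - 1` whose conjugates are close to `M β` with `β`
prescribed by `τ`. -/
def NearAt {L : Type} [Field L] (τ : (L →+* ℂ) → RootIdx r₁ r₂) (M : ℤ) : Prop :=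
  ∃ x : L, IsIntegral ℤ x ∧ aeval x (famPoly r₁ r₂ M) = 1 ∧
    ∀ σ : L →+* ℂ, ‖σ x - (M : ℂ) * bval r₁ r₂ (τ σ)‖ * ((M : ℝ) - 1) ^ (r₁ + 2 * r₂ - 1) ≤ 1

variable {r₁ r₂}

theorem IsFam.nearAt {K L : Type} [Field K] [NumberField K] [Field L] {M : ℤ} {θ : K}
    (h : IsFam r₁ r₂ M θ) (hM : 3 ≤ M) (e : K ≃+* L) :
    ∃ τ : (L →+* ℂ) → RootIdx r₁ r₂, NearAt r₁ r₂ τ M := by
  obtain ⟨E, hE⟩ := h.exists_equiv hM
  have h1 : ∀ σ : L →+* ℂ, ∃ β, ‖σ (e θ) - (M : ℂ) * bval r₁ r₂ β‖ ≤ 1 := by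
    intro σ
    obtain ⟨β, hβ⟩ := E.surjective (σ.comp (e : K →+* L))
    refine ⟨β, ?_⟩
    have := hE β
    rw [hβ] at this
    exact this
  choose τ hτ using h1
  have hcast : (e : K →+* L).comp (algebraMap ℤ K) = algebraMap ℤ L := RingHom.ext_int _ _
  have haeval : ∀ q : ℤ[X], aeval (e θ) q = e (aeval θ q) := by
    intro q
    have h2 : (e : K →+* L) (eval₂ (algebraMap ℤ K) θ q) =
        eval₂ ((e : K →+* L).comp (algebraMap ℤ K)) ((e : K →+* L) θ) q := hom_eval₂ _ _ _ _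
    rw [hcast] at h2
    rw [aeval_def, aeval_def]
    exact h2.symm
  refine ⟨τ, e θ, ?_, ?_, ?_⟩
  · have hpos : 0 < r₁ + 2 * r₂ := by rw [← h.deg]; exact Module.finrank_pos
    refine ⟨famPoly r₁ r₂ M - 1, ?_, ?_⟩
    · refine (famPoly_monic r₁ r₂ M).sub_of_left ?_
      rw [degree_one, degree_eq_natDegree (famPoly_monic r₁ r₂ M).ne_zero, famPoly_natDegree]
      exact_mod_cast hpos
    · rw [← aeval_def, haeval, map_sub, h.root, map_one, sub_self, map_zero]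
  · rw [haeval, h.root, map_one]
  · intro σ
    have h2 := h.near_le hM (σ.comp (e : K →+* L)) (τ σ) (hτ σ)
    exact h2

theorem nearAt_unique {L : Type} [Field L] [NumberField L] (hn : 3 ≤ r₁ + 2 * r₂)
    (τ : (L →+* ℂ) → RootIdx r₁ r₂) {X₀ M M' : ℤ} (hX : 8 ≤ X₀) (hM1 : X₀ ≤ M) (hM2 : M ≤ 2 * X₀)
    (hM1' : X₀ ≤ M') (hM2' : M' ≤ 2 * X₀) (h : NearAt r₁ r₂ τ M) (h' : NearAt r₁ r₂ τ M') :
    M = M' := by
  obtain ⟨x, hxi, hx, hxn⟩ := h
  obtain ⟨x', hxi', hx', hxn'⟩ := h'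
  have hXr : (8 : ℝ) ≤ X₀ := by exact_mod_cast hX
  have hMr1 : (X₀ : ℝ) ≤ M := by exact_mod_cast hM1
  have hMr2 : (M : ℝ) ≤ 2 * X₀ := by exact_mod_cast hM2
  have hMr1' : (X₀ : ℝ) ≤ M' := by exact_mod_cast hM1'
  have hMr2' : (M' : ℝ) ≤ 2 * X₀ := by exact_mod_cast hM2'
  -- distances
  have key : ∀ (M : ℤ) (x : L), (X₀ : ℝ) ≤ M → (∀ σ : L →+* ℂ,
      ‖σ x - (M : ℂ) * bval r₁ r₂ (τ σ)‖ * ((M : ℝ) - 1) ^ (r₁ + 2 * r₂ - 1) ≤ 1) →
      ∀ σ : L →+* ℂ, ‖σ x - (M : ℂ) * bval r₁ r₂ (τ σ)‖ * ((X₀ : ℝ) - 1) ^ 2 ≤ 1 := by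
    intro M x hM hx σ
    refine le_trans ?_ (hx σ)
    refine mul_le_mul_of_nonneg_left ?_ (norm_nonneg _)
    calc ((X₀ : ℝ) - 1) ^ 2 ≤ ((M : ℝ) - 1) ^ 2 := by
          apply pow_le_pow_left₀ <;> linarith
      _ ≤ ((M : ℝ) - 1) ^ (r₁ + 2 * r₂ - 1) := by
          apply pow_le_pow_right₀
          · linarith
          · omega
  have k1 := key M x hMr1 hxn
  have k2 := key M' x' hMr1' hxn'
  set y : L := (M' : L) * x - (M : L) * x' with hy
  have hyint : IsIntegral ℤ y := by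
    have hz : ∀ k : ℤ, IsIntegral ℤ ((k : ℤ) : L) := by
      intro k
      have : IsIntegral ℤ (algebraMap ℤ L k) := isIntegral_algebraMap
      simpa using this
    exact ((hz M').mul hxi).sub ((hz M).mul hxi')
  have hysmall : ∀ σ : L →+* ℂ, ‖σ y‖ < 1 := by
    intro σ
    set δ := ‖σ x - (M : ℂ) * bval r₁ r₂ (τ σ)‖ with hδ
    set δ' := ‖σ x' - (M' : ℂ) * bval r₁ r₂ (τ σ)‖ with hδ'
    have h1 : σ y = (M' : ℂ) * (σ x - (M : ℂ) * bval r₁ r₂ (τ σ)) -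
        (M : ℂ) * (σ x' - (M' : ℂ) * bval r₁ r₂ (τ σ)) := by
      rw [hy, map_sub, map_mul, map_mul, map_intCast, map_intCast]
      ring
    have h2 : ‖σ y‖ ≤ (M' : ℝ) * δ + (M : ℝ) * δ' := by
      rw [h1]
      refine (norm_sub_le _ _).trans ?_
      rw [norm_mul, norm_mul, Complex.norm_intCast, Complex.norm_intCast,
        abs_of_nonneg (by linarith : (0 : ℝ) ≤ M'), abs_of_nonneg (by linarith : (0 : ℝ) ≤ M)]
    have h3 := k1 σ
    have h4 := k2 σ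
    rw [← hδ] at h3
    rw [← hδ'] at h4
    have hδ0 : 0 ≤ δ := norm_nonneg _
    have hδ0' : 0 ≤ δ' := norm_nonneg _
    have h5 : 4 * (X₀ : ℝ) < ((X₀ : ℝ) - 1) ^ 2 := by nlinarith
    have h6 : (M' : ℝ) * δ + (M : ℝ) * δ' ≤ 2 * X₀ * (δ + δ') := by nlinarith
    have h7 : (δ + δ') * ((X₀ : ℝ) - 1) ^ 2 ≤ 2 := by linarith
    by_contra hcon
    push Not at hcon
    have h8 : 1 ≤ 2 * X₀ * (δ + δ') := by linarith
    have h9 : ((X₀ : ℝ) - 1) ^ 2 ≤ 2 * X₀ * ((δ + δ') * ((X₀ : ℝ) - 1) ^ 2) := by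
      have := mul_le_mul_of_nonneg_right h8 (sq_nonneg ((X₀ : ℝ) - 1))
      linarith
    have h10 : 2 * X₀ * ((δ + δ') * ((X₀ : ℝ) - 1) ^ 2) ≤ 2 * X₀ * 2 :=
      mul_le_mul_of_nonneg_left h7 (by linarith)
    linarith
  have hy0 : y = 0 := by
    by_contra hne
    have hne' : (⟨y, hyint⟩ : 𝓞 L) ≠ 0 := by
      intro h0
      apply hne
      exact congrArg (fun z : 𝓞 L => (z : L)) h0
    have hw : Nonempty (InfinitePlace L) := inferInstance
    obtain ⟨w⟩ := hw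
    have hsm : ∀ z : InfinitePlace L, z ((⟨y, hyint⟩ : 𝓞 L) : L) < 1 := by
      intro z
      rw [← InfinitePlace.norm_embedding_eq z]
      exact hysmall _
    have h1 := InfinitePlace.one_le_of_lt_one (w := w) hne' (fun z _ => hsm z)
    exact absurd (hsm w) (not_lt.2 h1)
  have hσ : Nonempty (L →+* ℂ) := inferInstance
  obtain ⟨σ⟩ := hσ
  have hp : ∀ (M : ℤ) (x : L), aeval x (famPoly r₁ r₂ M) = 1 →
      ∏ β, (σ x - (M : ℂ) * bval r₁ r₂ β) = 1 := by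
    intro M x hx
    rw [← aeval_famPoly]
    have h1 : σ (aeval x (famPoly r₁ r₂ M)) = aeval (σ x) (famPoly r₁ r₂ M) := by
      rw [aeval_def, aeval_def, hom_eval₂]
      congr 1
      exact RingHom.ext_int _ _
    rw [← h1, hx, map_one]
  have hp1 := hp M x hx
  have hp2 := hp M' x' hx'
  have hrel : (M' : ℂ) * σ x = (M : ℂ) * σ x' := by
    have h1 := congrArg σ hy0
    rw [hy, map_sub, map_mul, map_mul, map_intCast, map_intCast, map_zero, sub_eq_zero] at h1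
    exact h1
  have hpow : (M' : ℂ) ^ (r₁ + 2 * r₂) = (M : ℂ) ^ (r₁ + 2 * r₂) := by
    have h1 : ∏ β : RootIdx r₁ r₂, ((M' : ℂ) * (σ x - (M : ℂ) * bval r₁ r₂ β)) =
        ∏ β : RootIdx r₁ r₂, ((M : ℂ) * (σ x' - (M' : ℂ) * bval r₁ r₂ β)) := by
      refine Finset.prod_congr rfl fun β _ => ?_
      linear_combination hrel
    rw [Finset.prod_mul_distrib, Finset.prod_mul_distrib, hp1, hp2, mul_one, mul_one,
      Finset.prod_const, Finset.prod_const, Finset.card_univ, card_rootIdx] at h1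
    exact h1
  have hpow2 : M' ^ (r₁ + 2 * r₂) = M ^ (r₁ + 2 * r₂) := by exact_mod_cast hpow
  exact ((pow_left_inj₀ (by omega) (by omega) (by omega)).1 hpow2).symm

/-- Given finitely many number fields, some multiple `M ≥ 3` of `M₀` is such that no field of
the family with parameter `M` is isomorphic to one of them. -/
theorem exists_avoiding (hn : 3 ≤ r₁ + 2 * r₂) (M₀ : ℤ) (hM₀ : 0 < M₀) (k : ℕ)
    (L : Fin k → Type) [∀ i, Field (L i)] [∀ i, NumberField (L i)] :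
    ∃ M : ℤ, 3 ≤ M ∧ M₀ ∣ M ∧ ∀ (K : Type) [Field K] [NumberField K] (θ : K),
      IsFam r₁ r₂ M θ → ∀ i, IsEmpty (K ≃+* L i) := by
  classical
  set P := Σ i, ((L i →+* ℂ) → RootIdx r₁ r₂) with hP
  set T : ℕ := Fintype.card P + 8 with hT
  by_contra hcon
  push Not at hcon
  have h1 : ∀ s : Fin T, ∃ p : P, NearAt r₁ r₂ p.2 (M₀ * ((T : ℤ) + (s : ℕ))) := by
    intro s
    have hT8 : (8 : ℤ) ≤ T := by rw [hT]; push_cast; omega
    have hs : (0 : ℤ) ≤ ((s : ℕ) : ℤ) := Int.natCast_nonneg _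
    have hM3 : 3 ≤ M₀ * ((T : ℤ) + (s : ℕ)) := by nlinarith
    obtain ⟨K, hK1, hK2, θ, hfam, i, ⟨e⟩⟩ := hcon _ hM3 (Dvd.intro _ rfl)
    obtain ⟨τ, hτ⟩ := hfam.nearAt hM3 e
    exact ⟨⟨i, τ⟩, hτ⟩
  choose p hp using h1
  have hninj : ¬ Function.Injective p := by
    intro hinj
    have := Fintype.card_le_of_injective p hinj
    rw [Fintype.card_fin] at this
    omega
  rw [Function.Injective] at hninj
  push Not at hninj
  obtain ⟨s, s', hss, hne⟩ := hninj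
  have h2 := hp s
  rw [hss] at h2
  have hT8 : (8 : ℤ) ≤ T := by rw [hT]; push_cast; omega
  have hb : ∀ s : Fin T, M₀ * T ≤ M₀ * ((T : ℤ) + (s : ℕ)) ∧
      M₀ * ((T : ℤ) + (s : ℕ)) ≤ 2 * (M₀ * T) := by
    intro s
    have hs : (0 : ℤ) ≤ ((s : ℕ) : ℤ) := Int.natCast_nonneg _
    have hs2 : ((s : ℕ) : ℤ) ≤ T := by exact_mod_cast s.2.le
    constructor <;> nlinarith
  have h3 := nearAt_unique hn (p s').2 (X₀ := M₀ * T) (by nlinarith) (hb s).1 (hb s).2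
    (hb s').1 (hb s').2 h2 (hp s')
  apply hne
  have h4 := mul_left_cancel₀ hM₀.ne' h3
  apply Fin.ext
  omega

end Pool.Agent.Helper85_Leo
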