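import Pool.Agent.Helper85_Leo.Units
import Pool.Agent.Helper85_Leo.Signature

/-!
# The fields of the family are not Galois
-/

set_option autoImplicit false
set_option linter.unusedSectionVars false

open Filter Topology Polynomial NumberField

namespace Pool.Agent.Helper85_Leo

variable {K : Type} [Field K] [NumberField K] {r₁ r₂ : ℕ} {M : ℤ} {θ : K}

theorem IsFam.natDegree_pos (h : IsFam r₁ r₂ M θ) : 0 < r₁ + 2 * r₂ := by
  rw [← h.deg]; exact Module.finrank_pos

theorem IsFam.monic (h : IsFam r₁ r₂ M θ) : (famPoly r₁ r₂ M - 1).Monic := by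
  refine (famPoly_monic r₁ r₂ M).sub_of_left ?_
  rw [degree_one, degree_eq_natDegree (famPoly_monic r₁ r₂ M).ne_zero, famPoly_natDegree]
  exact_mod_cast h.natDegree_pos

theorem IsFam.natDegree_eq (h : IsFam r₁ r₂ M θ) :
    (famPoly r₁ r₂ M - 1).natDegree = r₁ + 2 * r₂ := by
  rw [← famPoly_natDegree r₁ r₂ M]
  exact natDegree_sub_eq_left_of_natDegree_lt
    (by rw [natDegree_one, famPoly_natDegree]; exact h.natDegree_pos)

/-- Factorisation over an algebraically closed field. -/
theorem IsFam.map_eq_prod' (h : IsFam r₁ r₂ M θ) (F : Type) [Field F] [CharZero F]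
    [IsAlgClosed F] :
    (famPoly r₁ r₂ M - 1).map (Int.castRingHom F) = ∏ σ : K →+* F, (X - C (σ θ)) := by
  classical
  set A : F[X] := (famPoly r₁ r₂ M - 1).map (Int.castRingHom F) with hA
  set B : F[X] := ∏ σ : K →+* F, (X - C (σ θ)) with hB
  have hAm : A.Monic := h.monic.map _
  have hBm : B.Monic := monic_prod_of_monic _ _ fun σ _ => monic_X_sub_C _
  have hAd : A.natDegree = r₁ + 2 * r₂ := by rw [hA, h.monic.natDegree_map, h.natDegree_eq]
  have hBd : B.natDegree = r₁ + 2 * r₂ := by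
    rw [hB, natDegree_prod_of_monic _ _ fun σ _ => monic_X_sub_C _]
    simp only [natDegree_X_sub_C, Finset.sum_const, Finset.card_univ, smul_eq_mul, mul_one]
    rw [Embeddings.card, h.deg]
  have hlt : (A - B).degree < A.degree := by
    refine degree_sub_lt_left ?_ hAm.ne_zero ?_
    · rw [degree_eq_natDegree hAm.ne_zero, degree_eq_natDegree hBm.ne_zero, hAd, hBd]
    · rw [hAm.leadingCoeff, hBm.leadingCoeff]
  have hzero : A - B = 0 := by
    by_contra hne
    have hlt' : (A - B).natDegree < r₁ + 2 * r₂ := by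
      rw [← hAd]
      exact natDegree_lt_natDegree hne hlt
    apply hne
    refine eq_zero_of_natDegree_lt_card_of_eval_eq_zero _ (f := fun σ : K →+* F => σ θ)
      (embedding_injective θ h.gen) ?_ ?_
    · intro σ
      rw [eval_sub]
      have h1 : A.eval (σ θ) = 0 := by
        rw [hA, eval_map]
        have h2 : eval₂ (Int.castRingHom F) (σ θ) (famPoly r₁ r₂ M - 1) =
            σ (aeval θ (famPoly r₁ r₂ M - 1)) := by
          rw [aeval_def, hom_eval₂]
          congr 1
          exact RingHom.ext_int _ _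
        rw [h2, map_sub, h.root, map_one, sub_self, map_zero]
      have h2 : B.eval (σ θ) = 0 := by
        rw [hB, eval_prod]
        exact Finset.prod_eq_zero (Finset.mem_univ σ) (by simp)
      rw [h1, h2, sub_self]
    · rw [Embeddings.card, h.deg]
      exact hlt'
  exact sub_eq_zero.1 hzero

theorem famPoly_map_of_dvd {R : Type*} [CommRing R] (r₁ r₂ : ℕ) (M : ℤ) (hM : (M : R) = 0) :
    (famPoly r₁ r₂ M).map (Int.castRingHom R) = X ^ (r₁ + 2 * r₂) := by
  rw [famPoly, Polynomial.map_prod, Fintype.prod_sum_type]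
  have hMX : ((M : ℤ) : R[X]) = 0 := by
    have h0 := congrArg (C : R → R[X]) hM
    rw [C_0] at h0
    rw [← h0]
    simp
  have h1 : ∀ i, (fam r₁ r₂ M (Sum.inl i)).map (Int.castRingHom R) = X := by
    intro i
    simp [fam, hMX]
  have h2 : ∀ j, (fam r₁ r₂ M (Sum.inr j)).map (Int.castRingHom R) = X ^ 2 := by
    intro j
    simp [fam, hMX]
  simp only [h1, h2, Finset.prod_const, Finset.card_univ, Fintype.card_fin]
  rw [← pow_mul, ← pow_add]

/-- If a prime `q` divides `M`, is smaller than the degree, and does not divide it, then `K` is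
not Galois over `ℚ`. -/
theorem IsFam.not_isGalois (h : IsFam r₁ r₂ M θ) (q : ℕ) [hq : Fact q.Prime] (hqM : (q : ℤ) ∣ M)
    (hqn : ¬ q ∣ r₁ + 2 * r₂) (hqlt : q < r₁ + 2 * r₂) : ¬ IsGalois ℚ K := by
  classical
  intro hG
  set n := r₁ + 2 * r₂ with hn
  set f : ℤ[X] := famPoly r₁ r₂ M - 1 with hf
  have hMq : ((M : ℤ) : ZMod q) = 0 := (ZMod.intCast_zmod_eq_zero_iff_dvd M q).2 hqM
  have hfq : f.map (Int.castRingHom (ZMod q)) = X ^ n - 1 := by
    rw [hf, Polynomial.map_sub, famPoly_map_of_dvd r₁ r₂ M hMq, Polynomial.map_one]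
  have hnq : ((n : ℕ) : ZMod q) ≠ 0 := by
    rw [Ne, ZMod.natCast_eq_zero_iff]
    exact hqn
  -- Hensel
  have h1 : ‖aeval (1 : ℤ_[q]) f‖ < 1 := by
    have h2 : aeval (1 : ℤ_[q]) f = ((f.eval 1 : ℤ) : ℤ_[q]) := by
      have := aeval_algebraMap_apply ℤ_[q] (1 : ℤ) f
      simpa using this
    rw [h2, PadicInt.norm_int_lt_one_iff_dvd, ← ZMod.intCast_zmod_eq_zero_iff_dvd]
    have h3 : ((f.eval 1 : ℤ) : ZMod q) = (f.map (Int.castRingHom (ZMod q))).eval 1 := by
      simp
    rw [h3, hfq]
    simp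
  have h2 : ‖aeval (1 : ℤ_[q]) (derivative f)‖ = 1 := by
    have h2 : aeval (1 : ℤ_[q]) (derivative f) = (((derivative f).eval 1 : ℤ) : ℤ_[q]) := by
      have := aeval_algebraMap_apply ℤ_[q] (1 : ℤ) (derivative f)
      simpa using this
    rw [h2]
    by_contra hne
    have hlt : ‖(((derivative f).eval 1 : ℤ) : ℤ_[q])‖ < 1 :=
      lt_of_le_of_ne (PadicInt.norm_le_one _) hne
    rw [PadicInt.norm_int_lt_one_iff_dvd, ← ZMod.intCast_zmod_eq_zero_iff_dvd] at hlt
    have h3 : (((derivative f).eval 1 : ℤ) : ZMod q) =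
        ((derivative f).map (Int.castRingHom (ZMod q))).eval 1 := by
      simp
    rw [h3, ← derivative_map, hfq, derivative_sub, derivative_one, sub_zero, derivative_X_pow]
      at hlt
    simp at hlt
    exact hnq hlt
  obtain ⟨z, hz, -⟩ := hensels_lemma (p := q) (F := f) (a := 1) (by rw [h2, one_pow]; exact h1)
  -- embeddings into the algebraic closure
  let F := AlgebraicClosure ℚ_[q]
  have hchar : CharZero F := charZero_of_injective_algebraMap (algebraMap ℚ_[q] F).injective
  have hprod := h.map_eq_prod' F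
  rw [← hf] at hprod
  let ψ : ℤ_[q] →+* F := (algebraMap ℚ_[q] F).comp (algebraMap ℤ_[q] ℚ_[q])
  have hψ : Function.Injective ψ :=
    (algebraMap ℚ_[q] F).injective.comp (IsFractionRing.injective ℤ_[q] ℚ_[q])
  -- `z` is a conjugate of `θ`
  obtain ⟨σ₀, hσ₀⟩ : ∃ σ₀ : K →+* F, σ₀ θ = ψ z := by
    have h3 : (f.map (Int.castRingHom F)).eval (ψ z) = 0 := by
      rw [eval_map]
      have h4 : eval₂ (Int.castRingHom F) (ψ z) f = ψ (aeval z f) := by
        rw [aeval_def, hom_eval₂]
        congr 1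
      rw [h4, hz, map_zero]
    rw [hprod, eval_prod, Finset.prod_eq_zero_iff] at h3
    obtain ⟨σ₀, -, h5⟩ := h3
    rw [eval_sub, eval_X, eval_C, sub_eq_zero] at h5
    exact ⟨σ₀, h5.symm⟩
  -- the image of `σ₀` lies in `ℚ_q`
  have himg : ∀ x : K, ∃ y : ℚ_[q], σ₀ x = algebraMap ℚ_[q] F y := by
    let E : IntermediateField ℚ K :=
      { (Subfield.comap σ₀ (algebraMap ℚ_[q] F).fieldRange) with
        algebraMap_mem' := fun r => by
          change σ₀ (algebraMap ℚ K r) ∈ (algebraMap ℚ_[q] F).fieldRange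
          exact ⟨(r : ℚ_[q]), by simp⟩ }
    have h3 : IntermediateField.adjoin ℚ ({θ} : Set K) ≤ E := by
      rw [IntermediateField.adjoin_le_iff]
      rintro x hx
      rw [Set.mem_singleton_iff.1 hx]
      change σ₀ θ ∈ (algebraMap ℚ_[q] F).fieldRange
      exact ⟨(z : ℚ_[q]), hσ₀.symm⟩
    intro x
    have h4 : x ∈ E := by
      rw [h.gen] at h3
      exact h3 (IntermediateField.mem_top (x := x))
    obtain ⟨y, hy⟩ := (h4 : σ₀ x ∈ (algebraMap ℚ_[q] F).fieldRange)
    exact ⟨y, hy.symm⟩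
  -- every embedding is `σ₀ ∘ g`
  have hsurj : ∀ σ : K →+* F, ∃ g : K ≃ₐ[ℚ] K, ∀ x, σ x = σ₀ (g x) := by
    let e : (K ≃ₐ[ℚ] K) → (K →+* F) := fun g => σ₀.comp (g : K →+* K)
    have he : Function.Injective e := by
      intro g g' hgg
      ext x
      have := RingHom.congr_fun hgg x
      exact σ₀.injective this
    have hbij : Function.Bijective e := by
      rw [Fintype.bijective_iff_injective_and_card]
      refine ⟨he, ?_⟩
      rw [Embeddings.card, ← Nat.card_eq_fintype_card, IsGalois.card_aut_eq_finrank]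
    intro σ
    obtain ⟨g, hg⟩ := hbij.2 σ
    exact ⟨g, fun x => (RingHom.congr_fun hg x).symm⟩
  have hint : ∀ σ : K →+* F, ∃ y : ℤ_[q], σ θ = ψ y := by
    intro σ
    obtain ⟨g, hg⟩ := hsurj σ
    obtain ⟨y, hy⟩ := himg (g θ)
    have hθint : IsIntegral ℤ (σ θ) := by
      refine ⟨f, h.monic, ?_⟩
      have h4 : eval₂ (algebraMap ℤ F) (σ θ) f = σ (aeval θ f) := by
        rw [aeval_def, hom_eval₂]
        congr 1
        exact RingHom.ext_int _ _
      rw [h4, hf, map_sub, h.root, map_one, sub_self, map_zero]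
    rw [hg θ, hy] at hθint
    have hyint : IsIntegral ℤ y := (isIntegral_algHom_iff
      ((algebraMap ℚ_[q] F).toIntAlgHom) (algebraMap ℚ_[q] F).injective).1 hθint
    refine ⟨⟨y, norm_le_one_of_isIntegral hyint⟩, ?_⟩
    rw [hg θ, hy]
    rfl
  choose y hy using hint
  have hfac : f.map (Int.castRingHom ℤ_[q]) = ∏ σ : K →+* F, (X - C (y σ)) := by
    apply Polynomial.map_injective ψ hψ
    rw [Polynomial.map_map, Polynomial.map_prod]
    have h3 : ψ.comp (Int.castRingHom ℤ_[q]) = Int.castRingHom F := RingHom.ext_int _ _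
    rw [h3, hprod]
    refine Finset.prod_congr rfl fun σ _ => ?_
    rw [Polynomial.map_sub, Polynomial.map_X, Polynomial.map_C, hy σ]
  have hfac2 : (X ^ n - 1 : (ZMod q)[X]) = ∏ σ : K →+* F, (X - C (PadicInt.toZMod (y σ))) := by
    rw [← hfq]
    have h3 := congrArg (Polynomial.map (PadicInt.toZMod (p := q))) hfac
    rw [Polynomial.map_map, Polynomial.map_prod] at h3
    have h4 : (PadicInt.toZMod (p := q)).comp (Int.castRingHom ℤ_[q]) =
        Int.castRingHom (ZMod q) := RingHom.ext_int _ _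
    rw [h4] at h3
    rw [h3]
    refine Finset.prod_congr rfl fun σ _ => ?_
    simp
  have hsep : (X ^ n - 1 : (ZMod q)[X]).Separable := by
    have := separable_X_pow_sub_C (F := ZMod q) (n := n) 1 hnq one_ne_zero
    simpa using this
  rw [hfac2, separable_prod_X_sub_C_iff] at hsep
  have hcard := Fintype.card_le_of_injective _ hsep
  rw [Embeddings.card, h.deg, ZMod.card] at hcard
  omega

end Pool.Agent.Helper85_Leo
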