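import Pool.Agent.Helper85_Leo.FamLeo
import Pool.Agent.Helper85_Leo.NonGalois
import Pool.Agent.Helper85_Leo.Infinite

/-!
# Infinitely many non-Galois fields of every signature satisfying Leopoldt's conjecture at
any prescribed finite set of primes
-/

set_option autoImplicit false

open Filter Topology Polynomial NumberField

namespace Pool.Agent.Helper85_Leo

theorem exists_leopoldt_field (r₁ r₂ : ℕ) (hn : 3 ≤ r₁ + 2 * r₂) (S : Finset ℕ) (k : ℕ)
    (L : Fin k → Type) [∀ i, Field (L i)] [∀ i, NumberField (L i)] :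
    ∃ (K : Type) (_ : Field K) (_ : NumberField K),
      InfinitePlace.nrRealPlaces K = r₁ ∧ InfinitePlace.nrComplexPlaces K = r₂ ∧
      ¬ IsGalois ℚ K ∧ (∀ i, IsEmpty (K ≃+* L i)) ∧
      ∀ p ∈ S, ∀ [Fact p.Prime], LeopoldtAt K p := by
  classical
  set n := r₁ + 2 * r₂ with hndef
  set q := Nat.minFac (n - 1) with hq
  have hqp : q.Prime := Nat.minFac_prime (by omega)
  have hqfact : Fact q.Prime := ⟨hqp⟩
  have hqdvd : q ∣ n - 1 := Nat.minFac_dvd _
  have hqlt : q < n := lt_of_le_of_lt (Nat.le_of_dvd (by omega) hqdvd) (by omega)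
  have hqn : ¬ q ∣ n := by
    intro h
    have h1 : q ∣ n - (n - 1) := Nat.dvd_sub h hqdvd
    have h2 : n - (n - 1) = 1 := by omega
    rw [h2] at h1
    exact hqp.one_lt.ne' (Nat.dvd_one.1 h1)
  set N : ℕ := q * ∏ p ∈ S.filter Nat.Prime, p with hN
  have hNpos : 0 < N := Nat.mul_pos hqp.pos
    (Finset.prod_pos fun p hp => (Finset.mem_filter.1 hp).2.pos)
  obtain ⟨M, hM3, hdvd, hM⟩ := exists_avoiding (r₁ := r₁) (r₂ := r₂) hn ((N : ℤ) ^ n)
    (pow_pos (by exact_mod_cast hNpos) n) k L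
  obtain ⟨K, hK1, hK2, θ, hfam⟩ := exists_isFam r₁ r₂ M (by omega) (by omega)
  refine ⟨K, hK1, hK2, hfam.nrRealPlaces hM3, hfam.nrComplexPlaces hM3, ?_, hM K θ hfam, ?_⟩
  · refine hfam.not_isGalois q ?_ hqn hqlt
    refine Dvd.dvd.trans ?_ hdvd
    have h1 : (q : ℤ) ∣ (N : ℤ) := by exact_mod_cast Dvd.intro _ rfl
    exact h1.trans (dvd_pow_self _ (by omega))
  · intro p hp hpf
    refine hfam.leopoldtAt hM3 p n ?_ ?_
    · refine Dvd.dvd.trans ?_ hdvd
      have h1 : p ∣ N := by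
        refine Dvd.dvd.mul_left ?_ q
        exact Finset.dvd_prod_of_mem (fun p => p) (Finset.mem_filter.2 ⟨hp, hpf.out⟩)
      exact pow_dvd_pow_of_dvd (by exact_mod_cast h1) n
    · have h1 : n < 2 ^ n := Nat.lt_two_pow_self
      have h2 : 2 ^ (2 * n) ≤ p ^ (2 * n) := Nat.pow_le_pow_left hpf.out.two_le _
      have h3 : 2 ^ (2 * n) = 2 ^ n * 2 ^ n := by rw [two_mul, pow_add]
      nlinarith

end Pool.Agent.Helper85_Leo
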