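import Pool.Agent.Helper85_Leo.Criterion

/-!
# The criterion in terms of integral polynomials
-/

set_option autoImplicit false
set_option linter.unusedSectionVars false

open Filter Topology NumberField Polynomial

namespace Pool.Agent.Helper85_Leo

theorem eval_eq_prod_roots_finset {F : Type} [Field F] [IsAlgClosed F] [DecidableEq F] (f : F[X])
    (hm : f.Monic) (hs : f.Separable) (x : F) :
    f.eval x = ∏ z ∈ f.roots.toFinset, (x - z) := by
  have h1 := (IsAlgClosed.splits f).eval_eq_prod_roots_of_monic hm x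
  have h2 : f.roots.toFinset.val = f.roots := by
    rw [Multiset.toFinset_val, (nodup_roots hs).dedup]
  rw [h1]
  change _ = (f.roots.toFinset.val.map fun z => x - z).prod
  rw [h2]

theorem card_roots_finset {F : Type} [Field F] [IsAlgClosed F] [DecidableEq F] (f : F[X])
    (hs : f.Separable) : f.roots.toFinset.card = f.natDegree := by
  rw [Multiset.toFinset_card_of_nodup (nodup_roots hs),
    (IsAlgClosed.splits f).natDegree_eq_card_roots]

/-- Leopoldt's conjecture for a number field `K` with a primitive element `θ` such that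
`∏ i, g i (θ) = ± 1` for monic integral polynomials `g i`, one more than the unit rank, whose
product is squarefree of degree `[K : ℚ]` and becomes a polynomial in `(X - a) / p ^ m`, with
`p ^ (2 m) > [K : ℚ] + 1`. -/
theorem leopoldtAt_of_poly_aux (p : ℕ) [hp : Fact p.Prime] (F : Type) [NormedField F]
    [NormedAlgebra ℚ_[p] F] [IsUltrametricDist F] [CompleteSpace F] [CharZero F] [IsAlgClosed F]
    {K : Type} [Field K] [NumberField K]
    {ι : Type} [Fintype ι] (g : ι → ℤ[X]) (hm : ∀ i, (g i).Monic) (hd : ∀ i, 0 < (g i).natDegree)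
    (hsq : Squarefree ((∏ i, g i).map (Int.castRingHom ℚ)))
    (θ : K) (hgen : IntermediateField.adjoin ℚ {θ} = ⊤)
    (hdeg : Module.finrank ℚ K = (∏ i, g i).natDegree)
    (hroot : (aeval θ (∏ i, g i)) ^ 2 = 1)
    (hrank : Units.rank K + 1 ≤ Fintype.card ι)
    (a : ℤ) (m : ℕ) (H : ℤ[X])
    (hH : (∏ i, g i).comp (C ((p : ℤ) ^ m) * X + C a) = C ((p : ℤ) ^ (m * Module.finrank ℚ K)) * H)
    (hpm : Module.finrank ℚ K + 1 < p ^ (2 * m)) : LeopoldtAt K p := by
  classical
  set G : ℤ[X] := ∏ i, g i with hG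
  set n := Module.finrank ℚ K with hn
  have hnpos : 0 < n := Module.finrank_pos
  have hGm : G.Monic := monic_prod_of_monic _ _ fun i _ => hm i
  have hm0 : m ≠ 0 := by
    rintro rfl
    simp at hpm
  set φ : ℤ →+* F := Int.castRingHom F with hφ
  have hsepQ : (G.map (Int.castRingHom ℚ)).Separable := PerfectField.separable_iff_squarefree.2 hsq
  have hsep : (G.map φ).Separable := by
    have h1 : G.map φ = (G.map (Int.castRingHom ℚ)).map (algebraMap ℚ F) := by
      rw [Polynomial.map_map]
      congr 1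
      exact RingHom.ext_int _ _
    rw [h1]
    exact hsepQ.map
  have hgi : ∀ i, ((g i).map φ).Separable := by
    intro i
    refine Separable.of_dvd hsep ?_
    exact Polynomial.map_dvd φ (Finset.dvd_prod_of_mem _ (Finset.mem_univ i))
  have hgim : ∀ i, ((g i).map φ).Monic := fun i => (hm i).map φ
  have hGφm : (G.map φ).Monic := hGm.map φ
  let R : ι → Type := fun i => {z : F // z ∈ ((g i).map φ).roots.toFinset}
  have hRcard : ∀ i, Fintype.card (R i) = (g i).natDegree := by
    intro i
    have h1 : Fintype.card (R i) = ((g i).map φ).roots.toFinset.card := Fintype.card_coe _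
    rw [h1, card_roots_finset _ (hgi i), (hm i).natDegree_map]
  have hne : ∀ i, Nonempty (R i) := by
    intro i
    rw [← Fintype.card_pos_iff, hRcard i]
    exact hd i
  set M : F := (p : F) ^ m with hM
  have hM0 : M ≠ 0 := pow_ne_zero _ (p_ne_zero p)
  have hMn : ‖M‖ = ((p : ℝ)⁻¹) ^ m := by rw [hM, norm_pow, norm_p_eq p]
  have hp2 : (2 : ℝ) ≤ p := by exact_mod_cast hp.out.two_le
  have hM1 : ‖M‖ ≤ 1 / 2 := by
    rw [hMn]
    have h1 : ((p : ℝ)⁻¹) ≤ 1 / 2 := by
      rw [one_div]
      exact inv_anti₀ (by norm_num) hp2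
    calc ((p : ℝ)⁻¹) ^ m ≤ (1 / 2 : ℝ) ^ m := pow_le_pow_left₀ (by positivity) h1 m
      _ ≤ (1 / 2 : ℝ) ^ 1 := pow_le_pow_of_le_one (by norm_num) (by norm_num) (by omega)
      _ = 1 / 2 := pow_one _
  have hM2 : ((n : ℝ) + 1) * ‖M‖ ^ 2 < 1 := by
    rw [hMn, ← pow_mul, mul_comm m 2, inv_pow, ← div_eq_mul_inv, div_lt_one (by positivity)]
    exact_mod_cast hpm
  let γ : (Σ i, R i) → F := fun j => (j.2.1 - a) / M
  have hroots : ∀ j : (Σ i, R i), (g j.1).aeval (j.2.1 : F) = 0 := by
    intro j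
    have h1 := j.2.2
    rw [Multiset.mem_toFinset, mem_roots (hgim j.1).ne_zero, IsRoot.def, eval_map] at h1
    have h2 : φ = algebraMap ℤ F := RingHom.ext_int _ _
    rw [aeval_def, ← h2]
    exact h1
  have hγM : ∀ j : (Σ i, R i), M * γ j = j.2.1 - a := by
    intro j
    simp only [γ]
    field_simp
  have hHm : H.Monic := by
    have hpz : ((p : ℤ) ^ m) ≠ 0 := pow_ne_zero _ (by exact_mod_cast hp.out.ne_zero)
    have hlin : (C ((p : ℤ) ^ m) * X + C a : ℤ[X]).natDegree = 1 := natDegree_linear hpz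
    have hlc : (C ((p : ℤ) ^ m) * X + C a : ℤ[X]).leadingCoeff = (p : ℤ) ^ m :=
      leadingCoeff_linear hpz
    have h1 := congrArg Polynomial.leadingCoeff hH
    rw [leadingCoeff_comp (by rw [hlin]; exact one_ne_zero), hGm.leadingCoeff, one_mul, hlc,
      leadingCoeff_mul, leadingCoeff_C, ← hdeg, ← pow_mul] at h1
    have h2 : ((p : ℤ) ^ (m * n)) ≠ 0 := pow_ne_zero _ (by exact_mod_cast hp.out.ne_zero)
    have h3 : ((p : ℤ) ^ (m * n)) * (H.leadingCoeff - 1) = 0 := by
      rw [mul_sub, ← h1]; ring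
    rcases mul_eq_zero.1 h3 with h4 | h4
    · exact absurd h4 h2
    · exact sub_eq_zero.1 h4
  have hγ1 : ∀ j, ‖γ j‖ ≤ 1 := by
    intro j
    refine norm_le_one_of_isIntegral ⟨H, hHm, ?_⟩
    have h1 := congrArg (fun q : ℤ[X] => aeval (γ j) q) hH
    simp only [aeval_comp, map_mul, aeval_C, map_add, aeval_X] at h1
    have h2 : (algebraMap ℤ F) ((p : ℤ) ^ m) * γ j + (algebraMap ℤ F) a = j.2.1 := by
      have h3 := hγM j
      have h4 : (algebraMap ℤ F) ((p : ℤ) ^ m) = M := by simp [hM]
      have h5 : (algebraMap ℤ F) a = a := by simp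
      rw [h4, h5, h3]
      ring
    rw [h2] at h1
    have h3 : aeval (j.2.1 : F) G = 0 := by
      obtain ⟨q, hq⟩ : g j.1 ∣ G := Finset.dvd_prod_of_mem _ (Finset.mem_univ j.1)
      rw [hq, map_mul, hroots j, zero_mul]
    rw [h3] at h1
    have h4 : (algebraMap ℤ F) ((p : ℤ) ^ (m * n)) ≠ 0 := by
      simp [hp.out.ne_zero]
    have h5 := (mul_eq_zero.1 h1.symm).resolve_left h4
    rw [aeval_def] at h5
    exact h5
  have hγinj : Function.Injective γ := by
    intro j k hjk
    have h1 : (j.2.1 : F) = k.2.1 := by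
      have h2 := hγM j
      have h3 := hγM k
      rw [hjk, h3] at h2
      exact (sub_left_injective h2).symm
    by_cases hi : j.1 = k.1
    · obtain ⟨i, z⟩ := j
      obtain ⟨i', z'⟩ := k
      simp only at hi
      subst hi
      simp only at h1
      rw [Subtype.ext h1]
    · exfalso
      have h2 : (g j.1 * g k.1) ∣ G := by
        have h3 : (∏ i ∈ ({j.1, k.1} : Finset ι), g i) ∣ G :=
          Finset.prod_dvd_prod_of_subset _ _ _ (Finset.subset_univ _)
        rwa [Finset.prod_pair hi] at h3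
      have h3 : ((g j.1 * g k.1).map φ).Separable := Separable.of_dvd hsep (Polynomial.map_dvd φ h2)
      rw [Polynomial.map_mul] at h3
      obtain ⟨u, v, huv⟩ := h3.isCoprime
      have h4 := congrArg (Polynomial.eval (j.2.1 : F)) huv
      have h5 : ((g j.1).map φ).eval (j.2.1 : F) = 0 := by
        have := j.2.2
        rw [Multiset.mem_toFinset, mem_roots (hgim j.1).ne_zero, IsRoot.def] at this
        exact this
      have h6 : ((g k.1).map φ).eval (j.2.1 : F) = 0 := by
        have := k.2.2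
        rw [Multiset.mem_toFinset, mem_roots (hgim k.1).ne_zero, IsRoot.def] at this
        rw [h1]
        exact this
      rw [eval_add, eval_mul, eval_mul, h5, h6] at h4
      simp at h4
  have hθ : IsIntegral ℤ θ := by
    refine ⟨G ^ 2 - 1, ?_, ?_⟩
    · refine (hGm.pow 2).sub_of_left ?_
      rw [degree_one]
      have h1 : (G ^ 2).natDegree = 2 * n := by rw [hGm.natDegree_pow, ← hdeg]
      rw [degree_eq_natDegree (hGm.pow 2).ne_zero, h1]
      exact_mod_cast (by omega : 0 < 2 * n)
    · rw [← aeval_def, map_sub, map_pow, hroot, map_one, sub_self]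
  let θ₀ : 𝓞 K := ⟨θ, hθ⟩
  have hθ₀ : ∀ q : ℤ[X], ((aeval θ₀ q : 𝓞 K) : K) = aeval θ q := by
    intro q
    have := Polynomial.aeval_algebraMap_apply K θ₀ q
    exact this.symm
  have hunit : ∀ i, IsUnit (aeval θ₀ (g i) : 𝓞 K) := by
    intro i
    have h1 : (aeval θ₀ G : 𝓞 K) ^ 2 = 1 := by
      apply RingOfIntegers.ext
      rw [← map_pow, hθ₀, map_pow, hroot]
      rfl
    have h2 : IsUnit (aeval θ₀ G : 𝓞 K) := by
      rw [← isUnit_pow_iff (two_ne_zero), h1]
      exact isUnit_one
    have h3 : (aeval θ₀ (g i) : 𝓞 K) ∣ aeval θ₀ G := by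
      obtain ⟨q, hq⟩ : g i ∣ G := Finset.dvd_prod_of_mem _ (Finset.mem_univ i)
      exact ⟨aeval θ₀ q, by rw [hq, map_mul]⟩
    exact isUnit_of_dvd_unit h3 h2
  have hinj : Function.Injective fun σ : K →+* F => σ θ := by
    intro σ τ h
    let E : IntermediateField ℚ K :=
      { RingHom.eqLocusField σ τ with
        algebraMap_mem' := fun q => by
          change σ (algebraMap ℚ K q) = τ (algebraMap ℚ K q)
          simp }
    have h1 : IntermediateField.adjoin ℚ ({θ} : Set K) ≤ E := by
      rw [IntermediateField.adjoin_le_iff]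
      rintro x hx
      rw [Set.mem_singleton_iff.1 hx]
      exact h
    rw [hgen] at h1
    ext x
    exact h1 (IntermediateField.mem_top (x := x))
  have hσ : ∀ (σ : K →+* F) (q : ℤ[X]), σ (aeval θ q) = (q.map φ).eval (σ θ) := by
    intro σ q
    rw [aeval_def, eval_map, hom_eval₂]
    congr 1
    exact RingHom.ext_int _ _
  have hblock : ∀ (σ : K →+* F) i, ∏ z : R i, (σ θ - a - M * γ ⟨i, z⟩) =
      ∏ z ∈ ((g i).map φ).roots.toFinset, (σ θ - z) := by
    intro σ i
    calc ∏ z : R i, (σ θ - a - M * γ ⟨i, z⟩) = ∏ z : R i, (σ θ - z.1) := by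
          refine Finset.prod_congr rfl fun z _ => ?_
          rw [hγM ⟨i, z⟩]
          ring
      _ = _ := Finset.prod_coe_sort _ (fun z => σ θ - z)
  refine leopoldtAt_of_blocks p (F := F) R θ hθ hinj ?_ (fun i => (hunit i).unit) a M hM0 hM1
    hM2 γ hγinj hγ1 ?_ ?_ hrank
  · rw [Fintype.card_sigma, ← hn, hdeg, hG, natDegree_prod_of_monic _ _ fun i _ => hm i]
    exact Finset.sum_congr rfl fun i _ => (hRcard i).symm
  · intro σ i
    have h1 : unitVal σ ((hunit i).unit) = σ (aeval θ (g i)) := by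
      change σ (((hunit i).unit : 𝓞 K) : K) = _
      rw [IsUnit.unit_spec, hθ₀]
    rw [h1, hσ, eval_eq_prod_roots_finset _ (hgim i) (hgi i)]
    exact (hblock σ i).symm
  · intro σ
    have h1 : ∏ j, (σ θ - a - M * γ j) = σ (aeval θ G) := by
      rw [hG, map_prod, map_prod, Fintype.prod_sigma]
      refine Finset.prod_congr rfl fun i _ => ?_
      rw [hσ, eval_eq_prod_roots_finset _ (hgim i) (hgi i)]
      exact hblock σ i
    rw [h1, ← map_pow, hroot, map_one]

/-- Leopoldt's conjecture for a number field `K` with a primitive element `θ` such that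
`∏ i, g i (θ) = ± 1` for monic integral polynomials `g i`, one more than the unit rank, whose
product is squarefree of degree `[K : ℚ]` and becomes a polynomial in `(X - a) / p ^ m`, with
`p ^ (2 m) > [K : ℚ] + 1`. -/
theorem leopoldtAt_of_poly (p : ℕ) [hp : Fact p.Prime] {K : Type} [Field K] [NumberField K]
    {ι : Type} [Fintype ι] (g : ι → ℤ[X]) (hm : ∀ i, (g i).Monic) (hd : ∀ i, 0 < (g i).natDegree)
    (hsq : Squarefree ((∏ i, g i).map (Int.castRingHom ℚ)))
    (θ : K) (hgen : IntermediateField.adjoin ℚ {θ} = ⊤)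
    (hdeg : Module.finrank ℚ K = (∏ i, g i).natDegree)
    (hroot : (aeval θ (∏ i, g i)) ^ 2 = 1)
    (hrank : Units.rank K + 1 ≤ Fintype.card ι)
    (a : ℤ) (m : ℕ) (H : ℤ[X])
    (hH : (∏ i, g i).comp (C ((p : ℤ) ^ m) * X + C a) = C ((p : ℤ) ^ (m * Module.finrank ℚ K)) * H)
    (hpm : Module.finrank ℚ K + 1 < p ^ (2 * m)) : LeopoldtAt K p :=
  leopoldtAt_of_poly_aux p ℂ_[p] g hm hd hsq θ hgen hdeg hroot hrank a m H hH hpm

end Pool.Agent.Helper85_Leo
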